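import Pool.Agent.J6H65.SG.PairL

/-!
The compositum of a normal extension with a finite Galois extension.
-/

set_option autoImplicit false
set_option linter.all false

open Polynomial
open scoped Classical

namespace Pool.Agent.J6H65.TW

open Pool.Agent.X243.Gen Pool.Agent.X243.Sol

theorem splits_cmp {k k₁ Ω : Type} [Field k] [Field k₁] [Field Ω] [Algebra k k₁] [Algebra k Ω]
    [Algebra k₁ Ω] [IsScalarTower k k₁ Ω] [Normal k k₁] [Normal k Ω] (A : IntermediateField k Ω)
    [Normal k A] (hgen : ∀ C : IntermediateField k Ω, A ≤ C →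
      (∀ y : k₁, algebraMap k₁ Ω y ∈ C) → C = ⊤) {F : k[X]} (hF : F.Separable)
    (h3 : 3 ≤ F.natDegree) (hfull : FullG (F.map (algebraMap k k₁)))
    (hspl : (F.map (algebraMap k Ω)).Splits) : (F.map (algebraMap k A)).Splits := by
  apply IntermediateField.splits_of_splits hspl
  by_contra hcon
  push Not at hcon
  obtain ⟨θ, hθ, hθA⟩ := hcon
  have hθ0 : aeval θ F = 0 := aeval_eq_zero_of_mem_rootSet hθ
  haveI : Normal A Ω := Normal.tower_top_of_normal k A Ω
  haveI : Normal k₁ Ω := Normal.tower_top_of_normal k k₁ Ω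
  have hθs : IsSeparable k θ := hF.of_dvd (minpoly.dvd _ _ hθ0)
  have hθsA : IsSeparable A θ := IsSeparable.tower_top A hθs
  -- an automorphism over `A` which moves `θ`
  obtain ⟨θ', hθ', hne⟩ : ∃ θ' : Ω, aeval θ' (minpoly A θ) = 0 ∧ θ' ≠ θ := by
    by_contra hno
    push Not at hno
    have hs : ((minpoly A θ).map (algebraMap A Ω)).Splits := Normal.splits inferInstance θ
    have hcard : Fintype.card ((minpoly A θ).rootSet Ω) = (minpoly A θ).natDegree :=
      card_rootSet_eq_natDegree hθsA hs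
    have h1 : Fintype.card ((minpoly A θ).rootSet Ω) ≤ 1 := by
      rw [Fintype.card_le_one_iff]
      intro a b
      apply Subtype.ext
      rw [hno a.1 (aeval_eq_zero_of_mem_rootSet a.2), hno b.1 (aeval_eq_zero_of_mem_rootSet b.2)]
    have h2 : (minpoly A θ).natDegree = 1 := by
      have := minpoly.natDegree_pos hθsA.isIntegral
      omega
    have h3 : θ ∈ (algebraMap A Ω).range := minpoly.natDegree_eq_one_iff.1 h2
    obtain ⟨y, hy⟩ := h3
    apply hθA
    rw [← hy]
    exact y.2
  obtain ⟨σ, hσ⟩ := minpoly.exists_algEquiv_of_root (K := A) (L := Ω) hθsA.isIntegral.isAlgebraic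
    hθ'
  obtain ⟨α, hα⟩ : ∃ α : Ω ≃ₐ[k] Ω, ∀ x, α x = σ x := ⟨σ.restrictScalars k, fun x => rfl⟩
  have hαA : ∀ x ∈ A, α x = x := by
    intro x hx
    rw [hα]
    exact σ.commutes ⟨x, hx⟩
  -- all the permutations of the roots over `k₁`
  have hroot : ∀ x : Ω, x ∈ (F.map (algebraMap k k₁)).rootSet Ω ↔ aeval x F = 0 := by
    intro x
    rw [mem_rootSet, aeval_map_algebraMap]
    exact ⟨fun h => h.2, fun h => ⟨(Separable.map hF).ne_zero, h⟩⟩
  have hspl1 : ((F.map (algebraMap k k₁)).map (algebraMap k₁ Ω)).Splits := by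
    rw [Polynomial.map_map, ← IsScalarTower.algebraMap_eq]
    exact hspl
  have hcard : Fintype.card ((F.map (algebraMap k k₁)).rootSet Ω) = F.natDegree := by
    rw [card_rootSet_eq_natDegree (Separable.map hF) hspl1, natDegree_map]
  have hβ : ∀ c : Equiv.Perm ((F.map (algebraMap k k₁)).rootSet Ω), ∃ τ : Ω ≃ₐ[k₁] Ω,
      ∀ z : (F.map (algebraMap k k₁)).rootSet Ω, τ z = c z := by
    intro c
    obtain ⟨E, hE⟩ : ∃ E : IntermediateField k₁ Ω, E =
      IntermediateField.adjoin k₁ ((F.map (algebraMap k k₁)).rootSet Ω) := ⟨_, rfl⟩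
    haveI hEs : IsSplittingField k₁ E (F.map (algebraMap k k₁)) := by
      rw [hE]
      exact IntermediateField.adjoin_rootSet_isSplittingField hspl1
    haveI : FiniteDimensional k₁ E := IsSplittingField.finiteDimensional E (F.map (algebraMap k k₁))
    haveI : IsGalois k₁ E := IsGalois.of_separable_splitting_field
      (p := F.map (algebraMap k k₁)) (Separable.map hF)
    have hmem : ∀ z : (F.map (algebraMap k k₁)).rootSet Ω, (z : Ω) ∈ E := by
      intro z
      rw [hE]
      exact IntermediateField.subset_adjoin _ _ z.2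
    have hmem' : ∀ z : Ω, ∀ hz : z ∈ E, z ∈ (F.map (algebraMap k k₁)).rootSet Ω ↔
        (⟨z, hz⟩ : E) ∈ (F.map (algebraMap k k₁)).rootSet E := by
      intro z hz
      rw [mem_rootSet, mem_rootSet]
      refine and_congr_right fun _ => ?_
      have h1 : aeval z (F.map (algebraMap k k₁)) =
          ((aeval (⟨z, hz⟩ : E) (F.map (algebraMap k k₁)) : E) : Ω) :=
        aeval_algebraMap_apply Ω (⟨z, hz⟩ : E) (F.map (algebraMap k k₁))
      rw [h1]
      exact ⟨fun h => Subtype.ext h, fun h => by rw [h]; rfl⟩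
    let e : (F.map (algebraMap k k₁)).rootSet Ω ≃ (F.map (algebraMap k k₁)).rootSet E :=
      { toFun := fun z => ⟨⟨z, hmem z⟩, (hmem' z (hmem z)).1 z.2⟩
        invFun := fun z => ⟨(z : E), (hmem' _ (z : E).2).2 z.2⟩
        left_inv := fun z => rfl
        right_inv := fun z => rfl }
    obtain ⟨g, hg⟩ := hfull E (IsSplittingField.splits E (F.map (algebraMap k k₁)))
      ((e.symm.trans c).trans e)
    refine ⟨g.liftNormal Ω, fun z => ?_⟩
    have h1 := AlgEquiv.liftNormal_commutes g Ω ((e z : (F.map (algebraMap k k₁)).rootSet E) : E)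
    have h2 : g ((e z : (F.map (algebraMap k k₁)).rootSet E) : E) =
        (((e.symm.trans c).trans e (e z) : (F.map (algebraMap k k₁)).rootSet E) : E) := by
      rw [← hg]
      rfl
    rw [h2, Equiv.trans_apply, Equiv.trans_apply, Equiv.symm_apply_apply] at h1
    exact h1
  -- the two automorphisms commute
  have hcom : ∀ (τ : Ω ≃ₐ[k₁] Ω) (x : Ω), α (τ x) = τ (α x) := by
    intro τ
    obtain ⟨t, ht⟩ : ∃ t : Ω ≃ₐ[k] Ω, ∀ x, t x = τ x := ⟨τ.restrictScalars k, fun x => rfl⟩
    obtain ⟨C, hC⟩ : ∃ C : IntermediateField k Ω, ∀ x, x ∈ C ↔ α (t x) = t (α x) := by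
      refine ⟨(AlgHom.equalizer (α.toAlgHom.comp t.toAlgHom)
        (t.toAlgHom.comp α.toAlgHom)).toIntermediateField ?_, fun x => Iff.rfl⟩
      intro x hx
      have hx' : α (t x) = t (α x) := hx
      show α (t x⁻¹) = t (α x⁻¹)
      rw [map_inv₀, map_inv₀, map_inv₀, map_inv₀, hx']
    have h1 : C = ⊤ := by
      apply hgen
      · intro x hx
        rw [hC, hαA x hx]
        have h2 := AlgEquiv.restrictNormal_commutes t A ⟨x, hx⟩
        have h3 : t x ∈ A := by
          have h4 : t x = ((t.restrictNormal A ⟨x, hx⟩ : A) : Ω) := h2.symm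
          rw [h4]
          exact Subtype.coe_prop _
        exact hαA _ h3
      · intro y
        rw [hC]
        have h2 := AlgEquiv.restrictNormal_commutes α k₁ y
        rw [← h2, ht, ht, τ.commutes, τ.commutes, h2]
    intro x
    rw [← ht, ← ht]
    apply (hC x).1
    rw [h1]
    trivial
  -- the contradiction
  obtain ⟨Z1, hZ1⟩ : ∃ Z1 : (F.map (algebraMap k k₁)).rootSet Ω, (Z1 : Ω) = θ :=
    ⟨⟨θ, (hroot θ).2 hθ0⟩, rfl⟩
  have hαθ0 : aeval (α θ) F = 0 := by
    rw [aeval_algHom_apply, hθ0, map_zero]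
  obtain ⟨Z2, hZ2⟩ : ∃ Z2 : (F.map (algebraMap k k₁)).rootSet Ω, (Z2 : Ω) = α θ :=
    ⟨⟨α θ, (hroot _).2 hαθ0⟩, rfl⟩
  have h12 : Z1 ≠ Z2 := by
    rintro rfl
    apply hne
    apply σ.injective
    rw [hσ, ← hα, ← hZ2, hZ1]
  obtain ⟨Z3, hZ3⟩ : ∃ Z3 : (F.map (algebraMap k k₁)).rootSet Ω,
      Z3 ∉ ({Z1, Z2} : Finset ((F.map (algebraMap k k₁)).rootSet Ω)) := by
    by_contra hall
    push Not at hall
    have h5 := Finset.card_le_card (fun x _ => hall x :
      (Finset.univ : Finset ((F.map (algebraMap k k₁)).rootSet Ω)) ⊆ _)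
    have h6 := Finset.card_le_two (a := Z1) (b := Z2)
    rw [Finset.card_univ, hcard] at h5
    omega
  simp only [Finset.mem_insert, Finset.mem_singleton, not_or] at hZ3
  obtain ⟨τ, hτ⟩ := hβ (Equiv.swap Z2 Z3)
  have e1 : τ θ = θ := by
    rw [← hZ1, hτ, Equiv.swap_apply_of_ne_of_ne h12 (Ne.symm hZ3.1)]
  have e2 : τ (α θ) = Z3 := by
    rw [← hZ2, hτ, Equiv.swap_apply_left]
  have e3 := hcom τ θ
  rw [e1, e2, ← hZ2] at e3
  exact hZ3.2 (Subtype.ext e3.symm)

theorem not_splits_cmp {k k₁ L' : Type} [Field k] [Field k₁] [Field L'] [Algebra k k₁]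
    [Algebra k L'] [Algebra k₁ L'] [IsScalarTower k k₁ L'] [Normal k k₁] [IsSepClosed L']
    (M : IntermediateField k L') [Normal k M] {F : k[X]} (hF : F.Separable)
    (h3 : 3 ≤ F.natDegree) (hfull : FullG (F.map (algebraMap k k₁)))
    (hns : ¬ (F.map (algebraMap k M)).Splits) :
    ¬ ((F.map (algebraMap k k₁)).map (algebraMap k₁
      (IntermediateField.adjoin k₁ (M : Set L')))).Splits := by
  intro hs
  obtain ⟨ι, hι⟩ : ∃ ι : k₁ →ₐ[k] L', ∀ y, ι y = algebraMap k₁ L' y :=
    ⟨IsScalarTower.toAlgHom k k₁ L', fun y => rfl⟩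
  haveI : Normal k ι.fieldRange := Normal.of_algEquiv (AlgEquiv.ofInjectiveField ι)
  obtain ⟨W, hW⟩ : ∃ W : IntermediateField k L', W = M ⊔ ι.fieldRange := ⟨_, rfl⟩
  haveI : Normal k W := by rw [hW]; infer_instance
  have hk₁W : ∀ y : k₁, algebraMap k₁ L' y ∈ W := by
    intro y
    rw [hW]
    exact (le_sup_right : ι.fieldRange ≤ M ⊔ ι.fieldRange) ⟨y, hι y⟩
  have hMW : M ≤ W := by rw [hW]; exact le_sup_left
  letI : Algebra k₁ W := (RingHom.codRestrict (algebraMap k₁ L') W hk₁W).toAlgebra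
  haveI : IsScalarTower k k₁ W := IsScalarTower.of_algebraMap_eq fun x => Subtype.ext
    (IsScalarTower.algebraMap_apply k k₁ L' x)
  have hsub : ∀ x ∈ IntermediateField.adjoin k₁ (M : Set L'), x ∈ W := by
    intro x hx
    induction hx using IntermediateField.adjoin_induction with
    | mem x hx => exact hMW hx
    | algebraMap r => exact hk₁W r
    | add x y _ _ hx hy => exact add_mem hx hy
    | inv x _ hx => exact inv_mem hx
    | mul x y _ _ hx hy => exact mul_mem hx hy
  have hsplL : (F.map (algebraMap k L')).Splits :=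
    IsSepClosed.splits_of_separable _ (Separable.map hF)
  have hrt : ∀ x ∈ F.rootSet L', x ∈ W := by
    intro x hx
    apply hsub
    have h1 : x ∈ (F.map (algebraMap k k₁)).rootSet L' := by
      rw [mem_rootSet, aeval_map_algebraMap]
      exact ⟨(Separable.map hF).ne_zero, aeval_eq_zero_of_mem_rootSet hx⟩
    rw [← hs.image_rootSet_algebraMap (B := L')] at h1
    obtain ⟨y, -, rfl⟩ := h1
    exact y.2
  obtain ⟨A, hA⟩ : ∃ A : IntermediateField k W, ∀ x : W, x ∈ A ↔ (x : L') ∈ M :=
    ⟨M.comap W.val, fun x => Iff.rfl⟩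
  have eAM : ∃ e : A ≃ₐ[k] M, ∀ x : A, ((e x : M) : L') = ((x : W) : L') := by
    let f : A →ₐ[k] M :=
      { toFun := fun x => ⟨((x : W) : L'), (hA _).1 x.2⟩
        map_one' := rfl
        map_mul' := fun _ _ => rfl
        map_zero' := rfl
        map_add' := fun _ _ => rfl
        commutes' := fun _ => rfl }
    refine ⟨AlgEquiv.ofBijective f ⟨f.toRingHom.injective, fun y => ?_⟩, fun x => rfl⟩
    exact ⟨⟨⟨y, hMW y.2⟩, (hA _).2 y.2⟩, rfl⟩
  obtain ⟨e, he⟩ := eAM
  haveI : Normal k A := Normal.of_algEquiv e.symm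
  apply hns
  have h1 := splits_cmp (k₁ := k₁) A (by
    intro C hAC hC
    rw [eq_top_iff]
    intro x _
    have h2 : W ≤ C.map W.val := by
      refine (le_of_eq hW).trans (sup_le ?_ ?_)
      · intro y hy
        have hy' : y ∈ W := hMW hy
        exact ⟨⟨y, hy'⟩, hAC ((hA _).2 hy), rfl⟩
      · rintro y ⟨z, hz0⟩
        have hz : algebraMap k₁ L' z = y := (hι z).symm.trans hz0
        have hy' : y ∈ W := by
          rw [← hz]
          exact hk₁W z
        refine ⟨⟨y, hy'⟩, ?_, rfl⟩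
        have h3 : (⟨y, hy'⟩ : W) = algebraMap k₁ W z := Subtype.ext hz.symm
        rw [h3]
        exact hC z
    obtain ⟨y, hy, hyx⟩ := h2 x.2
    have h3 : y = x := Subtype.ext hyx
    rw [← h3]
    exact hy) hF h3 hfull (IntermediateField.splits_of_splits hsplL hrt)
  have h2 := h1.map (e : A →+* M)
  rw [Polynomial.map_map] at h2
  have h3 : (e : A →+* M).comp (algebraMap k A) = algebraMap k M :=
    RingHom.ext fun x => e.commutes x
  rw [h3] at h2
  exact h2

theorem normal_cmp {k k₁ L' : Type} [Field k] [Field k₁] [Field L'] [Algebra k k₁]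
    [Algebra k L'] [Algebra k₁ L'] [IsScalarTower k k₁ L'] (M : IntermediateField k L')
    [Normal k M] : Normal k₁ (IntermediateField.adjoin k₁ (M : Set L')) := by
  have hint : ∀ x ∈ (M : Set L'), IsIntegral k₁ x := by
    intro x hx
    have h1 : IsIntegral k (⟨x, hx⟩ : M) := Algebra.IsIntegral.isIntegral _
    have h2 : IsIntegral k x := h1.map M.val
    exact h2.tower_top
  haveI halg : Algebra.IsAlgebraic k₁ (IntermediateField.adjoin k₁ (M : Set L')) :=
    IntermediateField.isAlgebraic_adjoin hint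
  refine normal_iff.2 fun x => ⟨Algebra.IsIntegral.isIntegral x, ?_⟩
  have hmin : minpoly k₁ x = minpoly k₁ (x : L') :=
    (minpoly.algebraMap_eq (algebraMap (IntermediateField.adjoin k₁ (M : Set L')) L').injective
      x).symm
  rw [hmin]
  refine IntermediateField.splits_of_mem_adjoin k₁ L'
    (L := IntermediateField.adjoin k₁ (M : Set L')) (S := (M : Set L')) (fun y hy => ⟨hint y hy, ?_⟩)
    x.2
  have h1 : ((minpoly k (⟨y, hy⟩ : M)).map (algebraMap k M)).Splits := Normal.splits inferInstance _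
  have h2 : minpoly k (⟨y, hy⟩ : M) = minpoly k y :=
    (minpoly.algebraMap_eq (algebraMap M L').injective (⟨y, hy⟩ : M)).symm
  rw [h2] at h1
  let f : M →+* IntermediateField.adjoin k₁ (M : Set L') :=
    RingHom.codRestrict (algebraMap M L') (IntermediateField.adjoin k₁ (M : Set L'))
      fun z => IntermediateField.subset_adjoin _ _ z.2
  have h3 := h1.map f
  rw [Polynomial.map_map] at h3
  have h4 : f.comp (algebraMap k M) = (algebraMap k₁ (IntermediateField.adjoin k₁ (M : Set L'))).comp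
      (algebraMap k k₁) := RingHom.ext fun z => Subtype.ext
        (IsScalarTower.algebraMap_apply k k₁ L' z)
  rw [h4, ← Polynomial.map_map] at h3
  have h5 : IsIntegral k y := (show IsIntegral k (⟨y, hy⟩ : M) from
    Algebra.IsIntegral.isIntegral _).map M.val
  refine h3.of_dvd ?_ ((mapRingHom _).map_dvd (minpoly.dvd_map_of_isScalarTower k k₁ y))
  rw [Polynomial.map_ne_zero_iff (algebraMap k₁ _).injective,
    Polynomial.map_ne_zero_iff (algebraMap k k₁).injective]
  exact minpoly.ne_zero h5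

end Pool.Agent.J6H65.TW
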