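import Pool.Agent.J6H65.TW.Pws
import Pool.Agent.J6H65.ST.Tup
import Pool.Agent.J6H65.ST.Trs

/-!
The conditions for the twists by a general polynomial, over extensions of the ground field.
-/

set_option autoImplicit false
set_option linter.all false

open Polynomial IsDedekindDomain
open scoped Classical

namespace Pool.Agent.J6H65.TW

open Pool.Agent.X243.Gen Pool.Agent.X243.Sol
open Pool.Agent.J6H65.SG
open Pool.Agent.J6H65.ST (Cnd)
open Pool.Agent.Y713 Pool.Agent.Y713.SE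

section

variable {k k₁ L L' : Type} [Field k] [Field k₁] [Algebra k k₁] [FiniteDimensional k k₁]
  [IsGalois k k₁] [Field L] [Field L'] [Algebra k L] [Algebra L L'] [Algebra k L']
  [IsScalarTower k L L'] [IsSepClosure L L']

theorem core_L (L' : Type) [Field L'] [Algebra L L'] [Algebra k L']
    [IsScalarTower k L L'] [IsSepClosure L L']
    {ℓ n Q m : ℕ} {ρ : Fin m → k₁} {D P : k[X]} (H : HyT ℓ n Q ρ D) (hℓ : ℓ.Prime)
    (hn : 5 ≤ n) (hk : (ℓ : k) ≠ 0) {ζ : k} (hζ : IsPrimitiveRoot ζ ℓ) (hRF : RF k k₁ P Q ρ)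
    (M : IntermediateField k L') [Normal k M]
    (hM : ∀ x : L, IsSeparable k x → algebraMap L L' x ∈ M)
    (hns : ¬ (D.map (algebraMap k M)).Splits) {T : Finset L[X]}
    (hT : ∀ π ∈ T, Irreducible π ∧ π.Monic ∧ π ∣ P.map (algebraMap k L)) :
    (¬ D.map (algebraMap k L) ∣ P.map (algebraMap k L)) ∧
    ∀ (c : L) (a : L[X] → ℕ) (z : L[X]), c ≠ 0 →
      D.map (algebraMap k L) ∣ C c * ∏ π ∈ T, π ^ a π - z ^ ℓ → ∀ π ∈ T, ℓ ∣ a π := by
  haveI : IsSepClosed L' := IsSepClosure.sep_closed L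
  haveI : Algebra.IsSeparable L L' := IsSepClosure.separable
  obtain ⟨ι, -⟩ : ∃ ι : k₁ →ₐ[k] L', ι = ι := ⟨IsSepClosed.lift, rfl⟩
  letI : Algebra k₁ L' := ι.toRingHom.toAlgebra
  haveI : IsScalarTower k k₁ L' := IsScalarTower.of_algebraMap_eq fun x => (ι.commutes x).symm
  obtain ⟨L₁, hL₁⟩ : ∃ L₁ : IntermediateField L L', L₁ =
    IntermediateField.adjoin L (Set.range (algebraMap k₁ L')) := ⟨_, rfl⟩
  have hmem : ∀ y : k₁, algebraMap k₁ L' y ∈ L₁ := fun y => by
    rw [hL₁]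
    exact IntermediateField.subset_adjoin _ _ ⟨y, rfl⟩
  letI : Algebra k₁ L₁ := (RingHom.codRestrict (algebraMap k₁ L') L₁ hmem).toAlgebra
  haveI : IsScalarTower k₁ L₁ L' := IsScalarTower.of_algebraMap_eq fun x => rfl
  haveI : Algebra.IsSeparable L₁ L' := Algebra.isSeparable_tower_top_of_isSeparable L L₁ L'
  haveI : IsSepClosure L₁ L' := ⟨inferInstance, inferInstance⟩
  have hgen : ∀ g : L' ≃ₐ[L] L', (∀ y : k₁, g (algebraMap k₁ L' y) = algebraMap k₁ L' y) →
      ∀ x : L₁, g (algebraMap L₁ L' x) = algebraMap L₁ L' x := by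
    intro g hg x
    have h1 : ∀ z ∈ L₁, g z = z := by
      intro z hz
      rw [hL₁] at hz
      induction hz using IntermediateField.adjoin_induction with
      | mem x hx =>
        obtain ⟨y, rfl⟩ := hx
        exact hg y
      | algebraMap r => exact g.commutes r
      | add x y _ _ hx hy => rw [map_add, hx, hy]
      | inv x _ hx => rw [map_inv₀, hx]
      | mul x y _ _ hx hy => rw [map_mul, hx, hy]
    exact h1 _ x.2
  exact ⟨not_dvd (L' := L') H hℓ hn hRF, pws_L (L₁ := L₁) (L' := L') H hℓ hn hk hζ hRF M hM hns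
    hgen hT⟩

end

/-- The product of `c` and of the differences. -/
noncomputable def Pp {k : Type} [Field k] {N : ℕ} (c : k[X]) (g : Fin N → k[X]) : k[X] :=
  c * ∏ q ∈ Finset.univ.filter (fun q : Fin N × Fin N => q.1 ≠ q.2), (g q.1 - g q.2)

theorem Pp_ne {k : Type} [Field k] {N : ℕ} {c : k[X]} (hc : c ≠ 0) {g : Fin N → k[X]}
    (hg : Function.Injective g) : Pp c g ≠ 0 := by
  refine mul_ne_zero hc (Finset.prod_ne_zero_iff.2 fun q hq => ?_)
  exact sub_ne_zero.2 fun h => (Finset.mem_filter.1 hq).2 (hg h)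

theorem c_dvd {k : Type} [Field k] {N : ℕ} (c : k[X]) (g : Fin N → k[X]) : c ∣ Pp c g :=
  dvd_mul_right _ _

theorem sub_dvd {k : Type} [Field k] {N : ℕ} (c : k[X]) (g : Fin N → k[X]) {i j : Fin N}
    (h : i ≠ j) : g i - g j ∣ Pp c g :=
  (Finset.dvd_prod_of_mem (fun q : Fin N × Fin N => g q.1 - g q.2)
    (Finset.mem_filter.2 ⟨Finset.mem_univ (i, j), h⟩)).trans (dvd_mul_left _ _)

section

variable {k k₁ L : Type} [Field k] [Field k₁] [Algebra k k₁] [FiniteDimensional k k₁]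
  [IsGalois k k₁] [Field L] [Algebra k L] {K : Type} [Field K] [Algebra L[X] K]
  [IsFractionRing L[X] K]

/-- The data of the twist. -/
structure TwD {ℓ N : ℕ} (D : Dat ℓ N K) (c E : k[X]) (g : Fin N → k[X]) (δ : L) : Prop where
  hδ : δ ≠ 0
  dδ : D.δ = algebraMap L[X] K (C δ * (E * c).map (algebraMap k L))
  de : ∀ i, D.e i = algebraMap L[X] K ((g i).map (algebraMap k L))

theorem cnd_L (L' : Type) [Field L'] [Algebra L L'] [Algebra k L']
    [IsScalarTower k L L'] [IsSepClosure L L'] {ℓ n Q m N : ℕ} {ρ : Fin m → k₁} {E c : k[X]} {g : Fin N → k[X]}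
    (H : HyT ℓ n Q ρ E) (hn : 5 ≤ n) (hk : (ℓ : k) ≠ 0) {ζ : k} (hζ : IsPrimitiveRoot ζ ℓ)
    (hc : c ≠ 0) (hg : Function.Injective g) (hRF : RF k k₁ (Pp c g) Q ρ)
    (M : IntermediateField k L') [Normal k M]
    (hM : ∀ x : L, IsSeparable k x → algebraMap L L' x ∈ M)
    (hns : ¬ (E.map (algebraMap k M)).Splits) {D : Dat ℓ N K}
    {δ : L} (hD : TwD D c E g δ) :
    ∃ T : Finset L[X], Cnd D T (E.map (algebraMap k L)) := by
  haveI : IsSepClosed L' := IsSepClosure.sep_closed L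
  have hℓ := D.hp
  obtain ⟨P, hP⟩ : ∃ P, P = (Pp c g).map (algebraMap k L) := ⟨_, rfl⟩
  have hP0 : P ≠ 0 := by
    rw [hP]
    exact (Polynomial.map_ne_zero_iff (algebraMap k L).injective).2 (Pp_ne hc hg)
  obtain ⟨T, hTd⟩ : ∃ T : Finset L[X], ∀ π, π ∈ T ↔ Irreducible π ∧ π.Monic ∧ π ∣ P := by
    refine ⟨(UniqueFactorizationMonoid.normalizedFactors P).toFinset, fun π => ?_⟩
    rw [Multiset.mem_toFinset, Polynomial.mem_normalizedFactors_iff hP0]
  have hT : ∀ π ∈ T, Irreducible π ∧ π.Monic ∧ π ∣ (Pp c g).map (algebraMap k L) :=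
    fun π hπ => hP ▸ (hTd π).1 hπ
  obtain ⟨h1, h2⟩ := core_L L' H hℓ hn hk hζ hRF M hM hns hT
  rw [← hP] at h1
  have hirr : Irreducible (E.map (algebraMap k L)) :=
    irr_L (L := L) (L' := L') H.f0.2.1 (by rw [H.f0.1.2]; exact hn) H.f0.2.2 M hM hns
  have hζL : IsPrimitiveRoot (algebraMap k L ζ) ℓ := hζ.map_of_injective (algebraMap k L).injective
  -- the polynomial `P` is a unit outside of `T`
  have hPv : ∀ v : HeightOneSpectrum L[X], (∀ π ∈ T, π ∉ v.asIdeal) → P ∉ v.asIdeal := by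
    intro v hv hPv
    have hve := gen_eq v
    have h3 : gen v ∣ P := by
      rw [hve] at hPv
      exact (mem_hp _ _).1 hPv
    exact hv (gen v) ((hTd _).2 ⟨gen_irr v, gen_monic v, h3⟩) (gen_mem v)
  have hPE : P ∉ (hp (E.map (algebraMap k L)) hirr).asIdeal := fun h => h1 ((mem_hp _ _).1 h)
  -- the differences and `c`
  have hdv : ∀ (v : HeightOneSpectrum L[X]), P ∉ v.asIdeal → ∀ i j, i ≠ j →
      v.valuation K (D.e i - D.e j) = 1 := by
    intro v hv i j hij
    rw [hD.de, hD.de, ← map_sub, ← Polynomial.map_sub, val_eq_one_iff]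
    intro hm
    apply hv
    rw [hP]
    exact Ideal.mem_of_dvd _ ((mapRingHom (algebraMap k L)).map_dvd (sub_dvd c g hij)) hm
  have hcv : ∀ (v : HeightOneSpectrum L[X]), P ∉ v.asIdeal →
      c.map (algebraMap k L) ∉ v.asIdeal := by
    intro v hv hm
    apply hv
    rw [hP]
    exact Ideal.mem_of_dvd _ ((mapRingHom (algebraMap k L)).map_dvd (c_dvd c g)) hm
  have hvδ : ∀ v : HeightOneSpectrum L[X], v.valuation K (algebraMap L[X] K (C δ)) = 1 := by
    intro v
    exact val_C hD.hδ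
  have hval : ∀ v : HeightOneSpectrum L[X], P ∉ v.asIdeal → v.valuation K D.δ =
      v.valuation K (algebraMap L[X] K (E.map (algebraMap k L))) := by
    intro v hv
    rw [hD.dδ, map_mul, Polynomial.map_mul, map_mul, map_mul, map_mul, hvδ, one_mul,
      (val_eq_one_iff v (c.map (algebraMap k L))).2 (hcv v hv), mul_one]
  refine ⟨T,
    { irr := hirr
      sep := Separable.map H.f0.2.1
      cst := fun b hb => by
        obtain ⟨a, ha⟩ := hb
        exact const_L (L' := L') H.f0.2.1 (by rw [H.f0.1.2]; exact hn) H.f0.2.2 M hM hns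
          hℓ.ne_zero ha ⟨_, hζL⟩
      mon := fun π hπ => ⟨((hTd π).1 hπ).1, ((hTd π).1 hπ).2.1⟩
      ndvd := fun π hπ hd => h1 (hd.trans ((hTd π).1 hπ).2.2)
      pws := h2
      good := fun v hv hne => ⟨hdv v (hPv v hv), ?_⟩
      at1 := hdv _ hPE
      at2 := ?_ }⟩
  · rw [hval v (hPv v hv), val_eq_one_iff]
    exact fun hmem => hne (eq_hp hirr hmem)
  · rw [hval _ hPE, val_hp_self]
    exact not_pw_exp hℓ

end

end Pool.Agent.J6H65.TW
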