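import Pool.Agent.H435R3.Weil.CRD
import Pool.Agent.X243.Sol.Cnt7
import Pool.Agent.R431.SG.PowN
import Pool.Agent.R431.SG.StepL

/-!
The number of the products of distinct linear factors over a finite field, such that a fixed polynomial
has two values at the zeros whose quotient is not an `ℓ`-th power.
-/

set_option autoImplicit false
set_option linter.all false

open scoped Classical

namespace Pool.Agent.J6H65.TW

open Polynomial Finset
open Pool.Agent.H435R3.Weil (crd Cop)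
open Pool.Agent.R431.SG (card_noninj rm_comp)
open Pool.Agent.X243.Sol Pool.Agent.X243.Tate Pool.Agent.Y160.T3

/-- the one sided bound -/
theorem step_boundF {ℓ : ℕ} (hℓ : ℓ.Prime) (d : ℕ) : ∃ P0 : ℕ, ∀ (F : Type) [Field F] [Fintype F],
    P0 ≤ Fintype.card F → ℓ ∣ Fintype.card F - 1 → ∀ f : F[X], 1 ≤ f.natDegree →
    f.natDegree ≤ d → Cop ℓ f → ∀ b : F, b ≠ 0 →
      (Fintype.card F : ℝ) ≤ 4 * ((univ.filter fun x : F => f.eval x ≠ 0 ∧
        ∀ y, f.eval x ≠ y ^ ℓ * b).card : ℝ) := by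
  obtain ⟨K, hK, hcrd⟩ := crd ℓ d hℓ.two_le
  obtain ⟨P1, hP1⟩ := exists_nat_gt ((4 * K) ^ 2)
  refine ⟨P1 + d + 2, ?_⟩
  intro F _ _ hp hdvd f hf1 hfd hcop b hb
  have hf0 : f ≠ 0 := by
    rintro rfl
    simp at hf1
  -- a point where `f` does not vanish
  obtain ⟨c, hc⟩ : ∃ c : F, f.eval c ≠ 0 := by
    by_contra hcon
    push Not at hcon
    have h1 : (univ : Finset F) ⊆ f.roots.toFinset := by
      intro x _
      rw [Multiset.mem_toFinset, mem_roots hf0]
      exact hcon x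
    have h2 := Finset.card_le_card h1
    rw [card_univ] at h2
    have h3 := Multiset.toFinset_card_le f.roots
    have h4 := card_roots' f
    omega
  set g := f.comp (X + C c) with hg
  have hgd : g.natDegree = f.natDegree := by
    rw [hg, natDegree_comp, natDegree_X_add_C, mul_one]
  have hge : ∀ x, g.eval x = f.eval (x + c) := by
    intro x
    rw [hg, eval_comp]
    simp
  have hgcop : Cop ℓ g := by
    obtain ⟨v, hv⟩ := hcop
    refine ⟨v - c, ?_⟩
    rw [hg, rm_comp]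
    exact hv
  obtain ⟨Q, hQ⟩ := hdvd
  have hp1 : 1 < Fintype.card F := Fintype.one_lt_card
  have hQ' : ℓ * Q + 1 = Fintype.card F := by omega
  have h1 := hcrd F g (by rw [hgd]; exact hf1) (by rw [hgd]; exact hfd)
    (by rw [hge, zero_add]; exact hc) hgcop (b ^ Q) Q hQ'
  set A := univ.filter fun x : F => g.eval x = 0 ∨ g.eval x ^ Q = b ^ Q with hA
  set Z := univ.filter fun x : F => f.eval x ≠ 0 ∧ ∀ y, f.eval x ≠ y ^ ℓ * b with hZ
  have h2 : Fintype.card F ≤ A.card + Z.card := by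
    have h3 : (univ : Finset F) ⊆ (A.image fun x => x + c) ∪ Z := by
      intro x _
      rw [mem_union]
      by_cases hx : x ∈ Z
      · exact Or.inr hx
      · left
        rw [mem_image]
        refine ⟨x - c, ?_, by ring⟩
        rw [hA, mem_filter]
        refine ⟨mem_univ _, ?_⟩
        rw [hge, sub_add_cancel]
        rw [hZ, mem_filter] at hx
        by_cases h0 : f.eval x = 0
        · exact Or.inl h0
        · right
          have h4 : ∃ y, f.eval x = y ^ ℓ * b := by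
            by_contra hcon
            push Not at hcon
            exact hx ⟨mem_univ _, h0, hcon⟩
          obtain ⟨y, hy⟩ := h4
          have hy0 : y ≠ 0 := by
            rintro rfl
            rw [zero_pow hℓ.ne_zero, zero_mul] at hy
            exact h0 hy
          rw [hy, mul_pow, ← pow_mul, ← hQ, FiniteField.pow_card_sub_one_eq_one y hy0, one_mul]
    have h4 := Finset.card_le_card h3
    rw [card_univ] at h4
    have h5 := Finset.card_union_le (A.image fun x => x + c) Z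
    have h6 := Finset.card_image_le (s := A) (f := fun x => x + c)
    omega
  obtain ⟨q, hq⟩ : ∃ q, q = Fintype.card F := ⟨_, rfl⟩
  rw [← hq] at h1 h2 hp ⊢
  have h3 : (q : ℝ) ≤ A.card + Z.card := by exact_mod_cast h2
  have h4 : (q : ℝ) / ℓ ≤ q / 2 := by
    have h5 : (2 : ℝ) ≤ ℓ := by exact_mod_cast hℓ.two_le
    exact div_le_div_of_nonneg_left (Nat.cast_nonneg _) (by norm_num) h5
  have h5 : K * Real.sqrt q ≤ q / 4 := by
    have h6 : (4 * K) ^ 2 ≤ (q : ℝ) := by
      have h7 : (P1 : ℝ) ≤ q := by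
        have : P1 ≤ q := by omega
        exact_mod_cast this
      linarith
    have h7 : 4 * K ≤ Real.sqrt q := Real.le_sqrt_of_sq_le h6
    have h8 : Real.sqrt q * Real.sqrt q = q := Real.mul_self_sqrt (Nat.cast_nonneg _)
    have h9 := mul_le_mul_of_nonneg_right h7 (Real.sqrt_nonneg (q : ℝ))
    rw [h8] at h9
    linarith
  linarith

/-- many pairs -/
theorem card_prsF {ℓ : ℕ} (hℓ : ℓ.Prime) (d : ℕ) : ∃ P0 : ℕ, ∀ (F : Type) [Field F] [Fintype F],
    P0 ≤ Fintype.card F → ℓ ∣ Fintype.card F - 1 → ∀ f : F[X], 1 ≤ f.natDegree →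
    f.natDegree ≤ d → Cop ℓ f →
      Fintype.card F * Fintype.card F ≤ 8 * (univ.filter fun x : F × F => f.eval x.1 ≠ 0 ∧
        f.eval x.2 ≠ 0 ∧ ∀ y, f.eval x.1 ≠ y ^ ℓ * f.eval x.2).card := by
  obtain ⟨P0, hP0⟩ := step_boundF hℓ d
  refine ⟨P0 + 2 * d, ?_⟩
  intro F _ _ hp hdvd f hf1 hfd hcop
  have hf0 : f ≠ 0 := by
    rintro rfl
    simp at hf1
  have hs := hP0 F (by omega) hdvd f hf1 hfd hcop
  set G := univ.filter fun x : F => f.eval x ≠ 0 with hG
  have h1 : Fintype.card F ≤ G.card + d := by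
    have h2 : (univ : Finset F) ⊆ G ∪ f.roots.toFinset := by
      intro x _
      rw [mem_union, hG, mem_filter, Multiset.mem_toFinset, mem_roots hf0]
      by_cases h : f.eval x = 0
      · exact Or.inr h
      · exact Or.inl ⟨mem_univ _, h⟩
    have h3 := Finset.card_le_card h2
    rw [card_univ] at h3
    have h4 := Finset.card_union_le G f.roots.toFinset
    have h5 := Multiset.toFinset_card_le f.roots
    have h6 := card_roots' f
    omega
  obtain ⟨q, hq⟩ : ∃ q, q = Fintype.card F := ⟨_, rfl⟩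
  rw [← hq] at h1 hs hp ⊢
  have h2 : (q : ℝ) ≤ 2 * G.card := by
    have : q ≤ 2 * G.card := by omega
    exact_mod_cast this
  set N : F → ℕ := fun b => (univ.filter fun x : F => f.eval x ≠ 0 ∧
    ∀ y, f.eval x ≠ y ^ ℓ * f.eval b).card with hN
  have h3 : ∑ b ∈ G, N b ≤ (univ.filter fun x : F × F => f.eval x.1 ≠ 0 ∧
        f.eval x.2 ≠ 0 ∧ ∀ y, f.eval x.1 ≠ y ^ ℓ * f.eval x.2).card := by
    rw [← Finset.card_sigma]
    refine Finset.card_le_card_of_injOn (fun z => (z.2, z.1)) ?_ ?_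
    · rintro ⟨b, x⟩ hz
      rw [Finset.mem_coe, Finset.mem_sigma, hG, mem_filter, mem_filter] at hz
      rw [Finset.mem_coe, mem_filter]
      exact ⟨mem_univ _, hz.2.2.1, hz.1.2, hz.2.2.2⟩
    · rintro ⟨b, x⟩ _ ⟨b', x'⟩ _ h
      have e1 : x = x' := congrArg Prod.fst h
      have e2 : b = b' := congrArg Prod.snd h
      rw [e1, e2]
  have h4 : ∀ b ∈ G, (q : ℝ) / 4 ≤ N b := by
    intro b hb
    rw [hG, mem_filter] at hb
    have := hs (f.eval b) hb.2
    rw [hN]
    dsimp only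
    linarith
  have h5 : (G.card : ℝ) * (q / 4) ≤ ∑ b ∈ G, (N b : ℝ) := by
    rw [← nsmul_eq_mul, ← Finset.sum_const]
    exact Finset.sum_le_sum h4
  have h6 : ((∑ b ∈ G, N b : ℕ) : ℝ) ≤ ((univ.filter fun x : F × F =>
      f.eval x.1 ≠ 0 ∧ f.eval x.2 ≠ 0 ∧ ∀ y, f.eval x.1 ≠ y ^ ℓ * f.eval x.2).card : ℝ) := by
    exact_mod_cast h3
  rw [Nat.cast_sum] at h6
  have h7 : (0 : ℝ) ≤ q := Nat.cast_nonneg _
  have h8 : (q : ℝ) * q ≤ 8 * ((univ.filter fun x : F × F => f.eval x.1 ≠ 0 ∧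
        f.eval x.2 ≠ 0 ∧ ∀ y, f.eval x.1 ≠ y ^ ℓ * f.eval x.2).card : ℝ) := by
    nlinarith
  exact_mod_cast h8

/-- The products of distinct linear factors such that `f` has values at two of the zeros whose quotient
is not an `ℓ`-th power. -/
def PF (ℓ n : ℕ) {F : Type} [CommRing F] (f : F[X]) : Set (Fin (n + 1) → F) :=
  {c | ∃ (d : F) (S : Finset F) (c₁ c₂ : F), d ≠ 0 ∧ S.card = n ∧
    bF c = C d * ∏ x ∈ S, (X - C x) ∧ c₁ ∈ S ∧ c₂ ∈ S ∧ f.eval c₁ ≠ 0 ∧ f.eval c₂ ≠ 0 ∧
    ∀ y, f.eval c₁ ≠ y ^ ℓ * f.eval c₂}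

theorem PF_card {ℓ : ℕ} (hℓ : ℓ.Prime) (d m : ℕ) : ∃ P0 : ℕ, ∀ (F : Type) [Field F] [Fintype F],
    P0 ≤ Fintype.card F → ℓ ∣ Fintype.card F - 1 → ∀ f : F[X], 1 ≤ f.natDegree →
    f.natDegree ≤ d → Cop ℓ f →
      Fintype.card F ^ (m + 2 + 1) ≤ 32 * (m + 2) ^ (m + 2) * (PF ℓ (m + 2) f).ncard := by
  obtain ⟨P0, hP0⟩ := card_prsF hℓ d
  refine ⟨P0 + 16 * ((m + 2) * (m + 2)) + 2, ?_⟩
  intro F _ _ hp hdvd f hf1 hfd hcop
  have hA := hP0 F (by omega) hdvd f hf1 hfd hcop
  obtain ⟨A, hAd⟩ : ∃ A, A = univ.filter fun x : F × F => f.eval x.1 ≠ 0 ∧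
        f.eval x.2 ≠ 0 ∧ ∀ y, f.eval x.1 ≠ y ^ ℓ * f.eval x.2 := ⟨_, rfl⟩
  rw [← hAd] at hA
  obtain ⟨q, hq⟩ : ∃ q, q = Fintype.card F := ⟨_, rfl⟩
  have hq2 : 16 * ((m + 2) * (m + 2)) + 2 ≤ q := by omega
  rw [← hq] at hA
  -- the tuples
  obtain ⟨T1, hT1⟩ : ∃ T1, T1 = univ.filter fun u : Fin (m + 2) → F => (u 0, u 1) ∈ A := ⟨_, rfl⟩
  obtain ⟨T, hT⟩ : ∃ T, T = T1.filter fun u : Fin (m + 2) → F => Function.Injective u := ⟨_, rfl⟩
  have hT1c : A.card * q ^ m ≤ T1.card := by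
    have e : q ^ m = (univ : Finset (Fin m → F)).card := by
      rw [card_univ, Fintype.card_fun, Fintype.card_fin, hq]
    rw [e, ← card_product]
    refine Finset.card_le_card_of_injOn (fun z => Fin.cons z.1.1 (Fin.cons z.1.2 z.2)) ?_ ?_
    · intro z hz
      rw [Finset.mem_coe, mem_product] at hz
      rw [Finset.mem_coe, hT1, mem_filter]
      refine ⟨mem_univ _, ?_⟩
      show (z.1.1, z.1.2) ∈ A
      exact hz.1
    · rintro ⟨⟨a, b⟩, v⟩ _ ⟨⟨a', b'⟩, v'⟩ _ h
      have e1 := congrFun h 0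
      have e2 := congrFun h 1
      have e3 : ∀ j : Fin m, v j = v' j := fun j => congrFun h j.succ.succ
      have e1' : a = a' := e1
      have e2' : b = b' := e2
      rw [e1', e2', funext e3]
  have hTc : q ^ (m + 2) ≤ 16 * T.card := by
    have h1 := card_noninj (F := F) (m + 2)
    rw [← hq] at h1
    have h2 : T1.card ≤ T.card + (univ.filter fun u : Fin (m + 2) → F =>
        ¬ Function.Injective u).card := by
      rw [hT, ← Finset.card_filter_add_card_filter_not (s := T1) (fun u => Function.Injective u)]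
      refine Nat.add_le_add_left (Finset.card_le_card ?_) _
      intro u hu
      rw [mem_filter] at hu ⊢
      exact ⟨mem_univ _, hu.2⟩
    have h3 : q ^ (m + 2) ≤ 8 * T1.card := by
      calc q ^ (m + 2) = (q * q) * q ^ m := by ring
        _ ≤ (8 * A.card) * q ^ m := Nat.mul_le_mul_right _ hA
        _ = 8 * (A.card * q ^ m) := by ring
        _ ≤ 8 * T1.card := Nat.mul_le_mul_left _ hT1c
    have h4 : 16 * (univ.filter fun u : Fin (m + 2) → F => ¬ Function.Injective u).card ≤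
        q ^ (m + 2) := by
      have h5 : (16 * (univ.filter fun u : Fin (m + 2) → F => ¬ Function.Injective u).card) * q ≤
          q ^ (m + 2) * q := by
        calc (16 * (univ.filter fun u : Fin (m + 2) → F => ¬ Function.Injective u).card) * q
            = 16 * ((univ.filter fun u : Fin (m + 2) → F => ¬ Function.Injective u).card * q) := by
              ring
          _ ≤ 16 * ((m + 2) * (m + 2) * q ^ (m + 2)) := Nat.mul_le_mul_left _ h1
          _ = q ^ (m + 2) * (16 * ((m + 2) * (m + 2))) := by ring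
          _ ≤ q ^ (m + 2) * q := Nat.mul_le_mul_left _ (by omega)
      exact Nat.le_of_mul_le_mul_right h5 (by omega)
    omega
  -- the sets
  obtain ⟨G, hG⟩ : ∃ G : Finset (Finset F), G = T.image fun u => univ.image u := ⟨_, rfl⟩
  have hGmem : ∀ S ∈ G, S.card = m + 2 ∧ ∃ c₁ ∈ S, ∃ c₂ ∈ S, (c₁, c₂) ∈ A := by
    intro S hS
    rw [hG, mem_image] at hS
    obtain ⟨u, hu, rfl⟩ := hS
    rw [hT, mem_filter, hT1, mem_filter] at hu
    refine ⟨?_, u 0, mem_image_of_mem _ (mem_univ _), u 1, mem_image_of_mem _ (mem_univ _),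
      hu.1.2⟩
    rw [card_image_of_injective _ hu.2, card_univ, Fintype.card_fin]
  have hGc : T.card ≤ (m + 2) ^ (m + 2) * G.card := by
    rw [hG]
    refine Finset.card_le_mul_card_image T _ ?_
    intro S hS
    have hSc : S.card = m + 2 := (hGmem S (hG ▸ hS)).1
    have e : (m + 2) ^ (m + 2) = (univ : Finset (Fin (m + 2) → S)).card := by
      rw [card_univ, Fintype.card_fun, Fintype.card_fin, Fintype.card_coe, hSc]
    rw [e]
    refine Finset.card_le_card_of_injOn (fun u j => if h : u j ∈ S then ⟨u j, h⟩ else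
      ⟨(Finset.card_pos.1 (by omega : 0 < S.card)).choose,
        (Finset.card_pos.1 (by omega : 0 < S.card)).choose_spec⟩) ?_ ?_
    · intro u _
      exact mem_univ _
    · intro u hu u' hu' h
      rw [Finset.mem_coe, mem_filter] at hu hu'
      funext j
      have h1 : u j ∈ S := by
        rw [← hu.2]
        exact mem_image_of_mem _ (mem_univ _)
      have h2 : u' j ∈ S := by
        rw [← hu'.2]
        exact mem_image_of_mem _ (mem_univ _)
      have h3 := congrFun h j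
      dsimp only at h3
      rw [dif_pos h1, dif_pos h2] at h3
      exact congrArg Subtype.val h3
  -- the polynomials
  have hmon : ∀ S : Finset F, (∏ c ∈ S, (X - C c) : F[X]).Monic :=
    fun S => monic_prod_X_sub_C (fun c => c) S
  let Φ : Fˣ × G → (Fin (m + 2 + 1) → F) :=
    fun x j => (C (x.1 : F) * ∏ c ∈ x.2.1, (X - C c)).coeff j
  have hb : ∀ x : Fˣ × G, bF (Φ x) = C (x.1 : F) * ∏ c ∈ x.2.1, (X - C c) := by
    intro x
    apply bF_coeffs
    rw [natDegree_C_mul x.1.ne_zero, natDegree_finset_prod_X_sub_C_eq_card,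
      (hGmem _ x.2.2).1]
  have hinj : Function.Injective Φ := by
    rintro ⟨u, S⟩ ⟨u', S'⟩ h
    have h1 := hb (u, S)
    rw [h, hb (u', S')] at h1
    obtain ⟨h2, h3⟩ := smul_inj (hmon _) (hmon _) h1
    simp only at h2 h3
    have h4 : S'.1 = S.1 := by
      have h5 := congrArg roots h3
      rw [roots_prod_X_sub_C, roots_prod_X_sub_C] at h5
      exact Finset.val_injective h5
    exact Prod.ext h2.symm (Subtype.ext h4.symm)
  have hmem : ∀ x, Φ x ∈ PF ℓ (m + 2) f := by
    intro x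
    obtain ⟨h1, c₁, h2, c₂, h3, h4⟩ := hGmem _ x.2.2
    rw [hAd, mem_filter] at h4
    exact ⟨x.1, x.2.1, c₁, c₂, x.1.ne_zero, h1, hb x, h2, h3, h4.2.1, h4.2.2.1, h4.2.2.2⟩
  have h1 := ncard_ge Φ hinj _ hmem
  rw [Fintype.card_prod, Fintype.card_coe] at h1
  have h3 := two_le_units (F := F) (by omega)
  rw [← hq] at h3 ⊢
  calc q ^ (m + 2 + 1) = q * q ^ (m + 2) := by rw [pow_succ, mul_comm]
    _ ≤ (2 * Fintype.card Fˣ) * (16 * ((m + 2) ^ (m + 2) * G.card)) :=
        Nat.mul_le_mul h3 (hTc.trans (Nat.mul_le_mul_left _ hGc))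
    _ = 32 * (m + 2) ^ (m + 2) * (Fintype.card Fˣ * G.card) := by ring
    _ ≤ 32 * (m + 2) ^ (m + 2) * (PF ℓ (m + 2) f).ncard := Nat.mul_le_mul_left _ h1

end Pool.Agent.J6H65.TW
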