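import Pool.Agent.J6H65.TW.Hom
import Pool.Agent.X243.Gen.Dens

/-!
Infinitely many maximal ideals of degree one.
-/

set_option autoImplicit false
set_option linter.all false

open Polynomial
open scoped Classical

namespace Pool.Agent.J6H65.TW

open Pool.Agent.X243.Gen (residue_finite jacobson_int)

theorem of_hom {R A κ : Type} [CommRing R] [CommRing A] [Algebra R A] [Field κ] (φ : A →+* κ)
    (hφ : Function.Surjective (φ.comp (algebraMap R A))) {c : A} (hc : φ c ≠ 0) :
    ∃ q : Ideal A, q.IsMaximal ∧ c ∉ q ∧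
      Function.Surjective ((Ideal.Quotient.mk q).comp (algebraMap R A)) := by
  have hs : Function.Surjective φ := by
    intro y
    obtain ⟨r, hr⟩ := hφ y
    exact ⟨algebraMap R A r, hr⟩
  refine ⟨RingHom.ker φ, RingHom.ker_isMaximal_of_surjective φ hs, fun h => hc h, ?_⟩
  intro y
  obtain ⟨a, rfl⟩ := Ideal.Quotient.mk_surjective y
  obtain ⟨r, hr⟩ := hφ (φ a)
  refine ⟨r, ?_⟩
  show Ideal.Quotient.mk _ (algebraMap R A r) = Ideal.Quotient.mk _ a
  rw [Ideal.Quotient.eq, RingHom.mem_ker, map_sub, sub_eq_zero]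
  exact hr

theorem units_int : {u : ℤ | IsUnit u}.Finite := by
  refine (Set.toFinite ({1, -1} : Set ℤ)).subset ?_
  intro u hu
  rcases Int.isUnit_iff.1 hu with h | h
  · exact Or.inl h
  · exact Or.inr h

theorem units_zmod (p : ℕ) [Fact p.Prime] : {u : (ZMod p)[X] | IsUnit u}.Finite := by
  refine ((Set.finite_range (C : ZMod p → (ZMod p)[X]))).subset ?_
  intro u hu
  obtain ⟨r, -, hr⟩ := Polynomial.isUnit_iff.1 hu
  exact ⟨r, hr⟩

theorem exists_pt (R A : Type) [CommRing R] [IsDomain R] [CommRing A] [IsDomain A] [Algebra R A]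
    (hinj : Function.Injective (algebraMap R A)) [Algebra.FiniteType ℤ A] (hR : ¬ IsField R)
    {c : A} (hc : c ≠ 0) :
    ∃ q : Ideal A, q.IsMaximal ∧ c ∉ q ∧
      Function.Surjective ((Ideal.Quotient.mk q).comp (algebraMap R A)) := by
  obtain ⟨K1, hK1⟩ : ∃ K1, K1 = FractionRing A := ⟨_, rfl⟩
  obtain ⟨s, hs⟩ := (inferInstance : Algebra.FiniteType ℤ A).out
  obtain ⟨W, hW⟩ : ∃ W : Finset (FractionRing A),
      W = s.image (algebraMap A (FractionRing A)) ∪ {(algebraMap A (FractionRing A) c)⁻¹} := ⟨_, rfl⟩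
  have hcK : algebraMap A (FractionRing A) c ≠ 0 := by
    rw [Ne, map_eq_zero_iff _ (IsFractionRing.injective A (FractionRing A))]
    exact hc
  have hA : ∀ a : A, algebraMap A (FractionRing A) a ∈ Subring.closure (W : Set (FractionRing A)) := by
    intro a
    have h1 : a ∈ Algebra.adjoin ℤ (s : Set A) := hs ▸ trivial
    induction h1 using Algebra.adjoin_induction with
    | mem x hx =>
      apply Subring.subset_closure
      rw [hW, Finset.mem_coe, Finset.mem_union]
      exact Or.inl (Finset.mem_image_of_mem _ hx)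
    | algebraMap r =>
      have h2 : algebraMap A (FractionRing A) (algebraMap ℤ A r) = (r : FractionRing A) := by
        simp
      rw [h2]
      exact intCast_mem _ r
    | add x y _ _ hx hy => rw [map_add]; exact add_mem hx hy
    | mul x y _ _ hx hy => rw [map_mul]; exact mul_mem hx hy
  have hci : (algebraMap A (FractionRing A) c)⁻¹ ∈
      Subring.closure (W : Set (FractionRing A)) := by
    apply Subring.subset_closure
    rw [hW, Finset.mem_coe, Finset.mem_union]
    exact Or.inr (Finset.mem_singleton_self _)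
  let j : A →+* Subring.closure (W : Set (FractionRing A)) :=
    (algebraMap A (FractionRing A)).codRestrict _ hA
  have hjc : ∀ {κ : Type} [Field κ] (ψ : Subring.closure (W : Set (FractionRing A)) →+* κ),
      ψ (j c) ≠ 0 := by
    intro κ _ ψ h0
    have h1 : j c * ⟨_, hci⟩ = 1 := Subtype.ext (mul_inv_cancel₀ hcK)
    have h2 := congrArg ψ h1
    rw [map_mul, h0, zero_mul, map_one] at h2
    exact zero_ne_one h2
  rcases CharP.exists' A with hch | ⟨p, hp, hch⟩
  · haveI := hch
    haveI : CharZero (FractionRing A) := charZero_of_injective_algebraMap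
      (IsFractionRing.injective A (FractionRing A))
    obtain ⟨m, n, ψ, hm, -⟩ := exists_hom (B := ℤ) (FB := ℚ) (k₁ := FractionRing A) units_int 1 W
    haveI := hm
    letI : Field (ℤ ⧸ m) := Ideal.Quotient.field m
    refine of_hom (R := R) (ψ.comp j) ?_ (c := c) (hjc ψ)
    intro y
    obtain ⟨z, rfl⟩ := Ideal.Quotient.mk_surjective y
    refine ⟨(z : R), ?_⟩
    rw [map_intCast]
    exact (map_intCast (Ideal.Quotient.mk m) z).symm
  · haveI := hp
    haveI := hch
    haveI : CharP R p := (RingHom.charP_iff (algebraMap R A) hinj p).2 hch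
    letI : Algebra (ZMod p) R := ZMod.algebra R p
    obtain ⟨x, hx⟩ : ∃ x : R, Transcendental (ZMod p) x := by
      by_contra hcon
      push Not at hcon
      apply hR
      haveI : Algebra.IsIntegral (ZMod p) R := ⟨fun r => by
        have h1 := hcon r
        rw [Transcendental, not_not] at h1
        exact h1.isIntegral⟩
      exact isField_of_isIntegral_of_isField' (Field.toIsField (ZMod p))
    let f0 : (ZMod p)[X] →+* FractionRing A :=
      ((algebraMap A (FractionRing A)).comp (algebraMap R A)).comp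
        (aeval x : (ZMod p)[X] →ₐ[ZMod p] R).toRingHom
    have hf0 : Function.Injective f0 := by
      refine (IsFractionRing.injective A (FractionRing A)).comp (hinj.comp ?_)
      exact transcendental_iff_injective.1 hx
    letI : Algebra (FractionRing (ZMod p)[X]) (FractionRing A) :=
      (IsFractionRing.lift (A := (ZMod p)[X]) hf0).toAlgebra
    have hal : ∀ b : (ZMod p)[X], algebraMap (FractionRing (ZMod p)[X]) (FractionRing A)
        (algebraMap (ZMod p)[X] (FractionRing (ZMod p)[X]) b) = f0 b := fun b =>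
      IsFractionRing.lift_algebraMap hf0 b
    haveI : ExpChar (FractionRing (ZMod p)[X]) p := by
      haveI : CharP (FractionRing (ZMod p)[X]) p := by
        refine (RingHom.charP_iff (algebraMap (ZMod p) (FractionRing (ZMod p)[X]))
          (algebraMap (ZMod p) (FractionRing (ZMod p)[X])).injective p).1 inferInstance
      exact ExpChar.prime hp.out
    obtain ⟨m, n, ψ, hm, hψ⟩ := exists_hom (B := (ZMod p)[X]) (FB := FractionRing (ZMod p)[X])
      (k₁ := FractionRing A) (units_zmod p) p W
    haveI := hm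
    letI : Field ((ZMod p)[X] ⧸ m) := Ideal.Quotient.field m
    haveI h3 : Algebra.FiniteType ℤ (ZMod p) := by
      refine Algebra.FiniteType.of_surjective (Algebra.ofId ℤ (ZMod p)) ?_
      exact ZMod.intCast_surjective
    haveI h4 : Algebra.FiniteType (ZMod p) (ZMod p)[X] := inferInstance
    haveI h5 : @Algebra.FiniteType ℤ (ZMod p)[X] _ _ (Ring.toIntAlgebra (ZMod p)[X]) := by
      have e : (Polynomial.algebraOfAlgebra : Algebra ℤ (ZMod p)[X]) =
        Ring.toIntAlgebra (ZMod p)[X] := Subsingleton.elim _ _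
      rw [← e]
      exact Algebra.FiniteType.trans h3 h4
    haveI : Finite ((ZMod p)[X] ⧸ m) := @residue_finite (ZMod p)[X] _ h5 m hm
    haveI : CharP ((ZMod p)[X] ⧸ m) p := by
      refine (RingHom.charP_iff ((Ideal.Quotient.mk m).comp (C : ZMod p →+* (ZMod p)[X]))
        (RingHom.injective _) p).1 inferInstance
    haveI : ExpChar ((ZMod p)[X] ⧸ m) p := ExpChar.prime hp.out
    refine of_hom (R := R) (ψ.comp j) ?_ (c := c) (hjc ψ)
    intro y
    have hbij : Function.Surjective (iterateFrobenius ((ZMod p)[X] ⧸ m) p n) :=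
      Finite.surjective_of_injective (iterateFrobenius ((ZMod p)[X] ⧸ m) p n).injective
    obtain ⟨z, rfl⟩ := hbij y
    obtain ⟨b, rfl⟩ := Ideal.Quotient.mk_surjective z
    refine ⟨aeval x b, ?_⟩
    have h1 := hψ b (by rw [hal]; exact hA _)
    have h2 : (⟨algebraMap (FractionRing (ZMod p)[X]) (FractionRing A)
        (algebraMap (ZMod p)[X] (FractionRing (ZMod p)[X]) b), by rw [hal]; exact hA _⟩ :
        Subring.closure (W : Set (FractionRing A))) = j (algebraMap R A (aeval x b)) :=
      Subtype.ext (hal b)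
    rw [h2] at h1
    exact h1

theorem deg1_inf (R A : Type) [CommRing R] [IsDomain R] [CommRing A] [IsDomain A] [Algebra R A]
    (hinj : Function.Injective (algebraMap R A)) [Algebra.FiniteType ℤ R] [Algebra.FiniteType ℤ A]
    (hR : ¬ IsField R) {β : A} (hβ : β ≠ 0) (B0 : ℕ) :
    {p : Ideal R | p.IsMaximal ∧ Finite (R ⧸ p) ∧ B0 ≤ Nat.card (R ⧸ p) ∧
      ∃ q : Ideal A, q.IsMaximal ∧ β ∉ q ∧ p = q.comap (algebraMap R A) ∧
        Function.Surjective ((Ideal.Quotient.mk q).comp (algebraMap R A))}.Infinite := by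
  intro hfin
  haveI : Infinite R := by
    by_contra h
    rw [not_infinite_iff_finite] at h
    exact hR (Finite.isField_of_domain R)
  obtain ⟨b, hb⟩ : ∃ b : R, ∏ q ∈ Finset.Ico 2 B0, (b ^ q - b) ≠ 0 := by
    obtain ⟨P, hP⟩ : ∃ P : Polynomial R, P = ∏ q ∈ Finset.Ico 2 B0,
      (Polynomial.X ^ q - Polynomial.X) := ⟨_, rfl⟩
    have hP0 : P ≠ 0 := by
      rw [hP, Finset.prod_ne_zero_iff]
      intro q hq h0
      have hq2 := (Finset.mem_Ico.1 hq).1
      have h1 := congrArg (fun f : Polynomial R => f.coeff q) h0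
      simp only [Polynomial.coeff_sub, Polynomial.coeff_X_pow_self, Polynomial.coeff_zero] at h1
      rw [Polynomial.coeff_X_of_ne_one (by omega), sub_zero] at h1
      exact one_ne_zero h1
    obtain ⟨b, hb⟩ := Infinite.exists_notMem_finset P.roots.toFinset
    refine ⟨b, fun h0 => hb ?_⟩
    rw [Multiset.mem_toFinset, Polynomial.mem_roots hP0, Polynomial.IsRoot.def, hP,
      Polynomial.eval_prod]
    simp only [Polynomial.eval_sub, Polynomial.eval_pow, Polynomial.eval_X]
    exact h0
  have hne : ∀ m ∈ hfin.toFinset, ∃ x ∈ m, x ≠ 0 := by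
    intro m hm
    rw [Set.Finite.mem_toFinset] at hm
    have h1 : m ≠ ⊥ := by
      rintro rfl
      exact hR (Ring.isField_iff_maximal_bot.2 hm.1)
    obtain ⟨x, hx, hx0⟩ := Submodule.exists_mem_ne_zero_of_ne_bot h1
    exact ⟨x, hx, hx0⟩
  choose! x hx hx0 using hne
  obtain ⟨c, hc⟩ : ∃ c : R, c = (∏ q ∈ Finset.Ico 2 B0, (b ^ q - b)) *
    ∏ m ∈ hfin.toFinset, x m := ⟨_, rfl⟩
  have hc0 : c ≠ 0 := by
    rw [hc]
    refine mul_ne_zero hb ?_
    rw [Finset.prod_ne_zero_iff]
    exact hx0
  have hcA : algebraMap R A c ≠ 0 := by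
    rw [Ne, map_eq_zero_iff _ hinj]
    exact hc0
  obtain ⟨q, hq, hcq, hsurj⟩ := exists_pt R A hinj hR (mul_ne_zero hcA hβ)
  have hβq : β ∉ q := fun h => hcq (q.mul_mem_left _ h)
  have hcq' : c ∉ q.comap (algebraMap R A) := fun h => hcq (q.mul_mem_right _ h)
  haveI := hq
  have hpm : (q.comap (algebraMap R A)).IsMaximal := by
    have h1 : q.comap (algebraMap R A) =
        RingHom.ker ((Ideal.Quotient.mk q).comp (algebraMap R A)) := by
      ext z
      rw [Ideal.mem_comap, RingHom.mem_ker]
      exact Ideal.Quotient.eq_zero_iff_mem.symm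
    rw [h1]
    letI : Field (A ⧸ q) := Ideal.Quotient.field q
    exact RingHom.ker_isMaximal_of_surjective _ hsurj
  haveI := hpm
  haveI : Finite (R ⧸ q.comap (algebraMap R A)) := residue_finite R _
  have hcard : B0 ≤ Nat.card (R ⧸ q.comap (algebraMap R A)) := by
    by_contra h4
    apply hcq'
    rw [hc]
    refine Ideal.mul_mem_right _ _ ?_
    letI : Field (R ⧸ q.comap (algebraMap R A)) := Ideal.Quotient.field _
    letI := Fintype.ofFinite (R ⧸ q.comap (algebraMap R A))
    have h5 : Nat.card (R ⧸ q.comap (algebraMap R A)) ∈ Finset.Ico 2 B0 := by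
      rw [Finset.mem_Ico]
      refine ⟨?_, by omega⟩
      rw [Nat.card_eq_fintype_card]
      exact Fintype.one_lt_card
    rw [← Finset.mul_prod_erase _ _ h5]
    refine Ideal.mul_mem_right _ _ ?_
    rw [← Ideal.Quotient.eq, map_pow, Nat.card_eq_fintype_card, FiniteField.pow_card]
  have hmem : q.comap (algebraMap R A) ∈ hfin.toFinset := by
    rw [Set.Finite.mem_toFinset]
    exact ⟨hpm, inferInstance, hcard, q, hq, hβq, rfl, hsurj⟩
  apply hcq'
  rw [hc]
  refine Ideal.mul_mem_left _ _ ?_
  rw [← Finset.mul_prod_erase _ _ hmem]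
  exact Ideal.mul_mem_right _ _ (hx _ hmem)

end Pool.Agent.J6H65.TW
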