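import Pool.Agent.J6H65.TW.Cn

/-!
The conclusions for the curves which satisfy the conditions.
-/

set_option autoImplicit false
set_option linter.all false

open Polynomial IsDedekindDomain

namespace Pool.Agent.J6H65.TW

open Pool.Agent.Y713 Pool.Agent.Y713.SE
open Pool.Agent.Y713.SE.Dat (au)
open Pool.Agent.J6H65.SG (crit1' triv_one)
open Pool.Agent.J6H65.ST
open Pool.Agent.TH115.GD (incl rs ak Sep Comp IsTower)
open Pool.Agent.R431.SG (stab2)
open Pool.Agent.Y160.SE (Jac jm IsCoc LocTriv)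

section

variable {k : Type} [Field k] {K : Type} [Field K] [Algebra k[X] K] [IsFractionRing k[X] K]

theorem key_cnd {ℓ N : ℕ} {D : Dat ℓ N K} {T : Finset k[X]} {D1 : k[X]} (hC : Cnd D T D1)
    (hk : (ℓ : k) ≠ 0) {L : Type} [Field L] [Algebra K L] [IsGalois K L]
    [IsSepClosed L] (Ω : HeightOneSpectrum k[X] → Type) [∀ v, Field (Ω v)]
    [∀ v, Algebra (v.adicCompletion K) (Ω v)] [∀ v, Algebra K (Ω v)]
    [∀ v, IsScalarTower K (v.adicCompletion K) (Ω v)] [∀ v, IsSepClosed (Ω v)]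
    [∀ v, IsGalois (v.adicCompletion K) (Ω v)] (χ : (L ≃ₐ[K] L) → Fin N → ℕ)
    (hc : D.Coc (fun σ => cl ((D.base L).PT (χ σ))))
    (ht : ∀ v, D.Triv (v.adicCompletion K) (Ω v) (fun σ => cl ((D.base L).PT (χ σ)))) :
    ∃ (m : Fin N → ℕ) (Q : ClassGroup (D.base L).A),
      cl ((D.base L).PT m) * (D.base L).sC Q = Q ∧
      ∀ σ, cl ((D.base L).PT (χ σ)) = D.mC (Dat.au σ) Q / Q := by
  classical
  let Bad : Set (HeightOneSpectrum k[X]) := {v | ∃ π ∈ T, π ∈ v.asIdeal}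
  have hnBad : ∀ v, v ∉ Bad → (∀ π ∈ T, π ∉ v.asIdeal) := fun v hv π hπ hm => hv ⟨π, hπ, hm⟩
  obtain ⟨p, hexp⟩ := ExpChar.exists K
  haveI := hexp
  haveI : ExpChar L p := expChar_of_injective_algebraMap (algebraMap K L).injective p
  haveI : ∀ v : HeightOneSpectrum k[X], ExpChar (Ω v) p := fun v =>
    expChar_of_injective_algebraMap (algebraMap K (Ω v)).injective p
  exact crit1' D (p := p) (L := L) Ω (by
      intro v
      have h3 : ((ℓ : ℕ) : K) = algebraMap k[X] K (C (ℓ : k)) := by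
        rw [C_eq_natCast, map_natCast]
      rw [h3]
      exact val_C hk) Bad (hp D1 hC.irr) hC.at1 hC.at2
      (fun v hv hvne => hC.good v (hnBad v hv) hvne) (by
      intro d hd hpw hx
      refine stab2 D.hp hC.irr hC.cst T hC.mon hC.ndvd hC.pws hd (fun v hv hvne => hpw v ?_ hvne) hx
      rintro ⟨π, hπ, hm⟩
      exact hv π hπ hm) χ hc ht

theorem points_cnd {ℓ N : ℕ} {D : Dat ℓ N K} {T : Finset k[X]} {D1 : k[X]} (hC : Cnd D T D1)
    (hk : (ℓ : k) ≠ 0) :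
    ∀ x : ClassGroup (D.base K).A, ∃ t y : ClassGroup (D.base K).A, t ^ ℓ = 1 ∧ x = t * y ^ ℓ := by
  obtain ⟨p, hexp⟩ := ExpChar.exists K
  haveI := hexp
  haveI : ExpChar (SeparableClosure K) p :=
    expChar_of_injective_algebraMap (algebraMap K (SeparableClosure K)).injective p
  haveI : ∀ v : HeightOneSpectrum k[X], ExpChar (SeparableClosure (v.adicCompletion K)) p := fun v =>
    expChar_of_injective_algebraMap
      (algebraMap K (SeparableClosure (v.adicCompletion K))).injective p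
  have key := key_cnd hC hk (L := SeparableClosure K)
    (fun v : HeightOneSpectrum k[X] => SeparableClosure (v.adicCompletion K))
  intro x
  exact Pool.Agent.Y287.SZ.Rk.t ℓ N K D (SeparableClosure K) p
      (fun c => ∀ v : HeightOneSpectrum k[X], D.Triv (v.adicCompletion K)
        (SeparableClosure (v.adicCompletion K)) c)
      (fun v => triv_one D (IsSepClosed.lift))
      (fun c Q h v => (h v).div D Q) key x

theorem sha_cnd {ℓ N : ℕ} {D : Dat ℓ N K} {T : Finset k[X]} {D1 : k[X]} (hC : Cnd D T D1)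
    (hk : (ℓ : k) ≠ 0) : ShaTrivial ℓ k D.f ∧ PointsTorsion ℓ D.f := by
  have key := key_cnd hC hk (L := Sep K)
    (fun v : HeightOneSpectrum k[X] => SeparableClosure (v.adicCompletion K))
  have key2 := points_cnd hC hk
  constructor
  · intro c h1 h2 m Q hQ
    exact sha_tj D (k := k) (fun χ h3 h4 => by
      obtain ⟨m, Q, -, hQ⟩ := key χ h3 h4
      exact ⟨Q, hQ⟩) (c := c) ⟨h1.lc, h1.mul⟩ h2 m Q hQ
  · have h5 : ∀ P : Jac ℓ D.f K, ∃ T Q : Jac ℓ D.f K, ℓ • T = 0 ∧ P = T + ℓ • Q := by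
      intro P
      obtain ⟨t, y, ht, hy⟩ := key2 (D.tj K P)
      obtain ⟨T, hT⟩ := D.tj_surj K t
      obtain ⟨Q, hQ⟩ := D.tj_surj K y
      refine ⟨T, Q, ?_, ?_⟩
      · apply D.tj_inj
        rw [tj_nsmul, hT, ht, D.tj_zero]
      · apply D.tj_inj
        rw [D.tj_add, tj_nsmul, hT, hQ, ← hy]
    exact ⟨h5, fun hfg => SG.finite_of_add D.hp h5 hfg⟩

theorem nc_cnd {k' F : Type} [Field k'] [Algebra k k'] [Field F] [Algebra k'[X] F]
    [IsFractionRing k'[X] F] [Algebra K F] (hTw : IsTower k k' K F) {ℓ N : ℕ} {D : Dat ℓ N K}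
    {T : Finset k[X]} {D1 : k[X]} (hC : Cnd D T D1) (hk : (ℓ : k) ≠ 0) {ζ : k}
    (hζ : IsPrimitiveRoot ζ ℓ) : NoClasses (F := F) ℓ k' D.f := by
  intro c h1 h2 h3 m
  have hOT : OT ℓ k' D.f c := by
    refine ⟨⟨fun n => ⟨(h1.coc n).lc, (h1.coc n).mul⟩, h1.zero, h1.step⟩, h2, fun τ => ?_⟩
    obtain ⟨m, Q, hQ, h4⟩ := h3 τ
    exact ⟨m, Q, ⟨hQ.zero, hQ.step⟩, h4⟩
  obtain ⟨P, R, a1, a2, a3⟩ := no_classes0 (F := F) hTw hC hk hζ hOT m
  exact ⟨P, R, a1, a2, a3⟩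

end

theorem not_dvd0 {k k₁ : Type} [Field k] [Field k₁] [Algebra k k₁] [FiniteDimensional k k₁]
    [IsGalois k k₁] {ℓ n Q m : ℕ} {ρ : Fin m → k₁} {D P : k[X]} (H : HyT ℓ n Q ρ D) (hℓ : ℓ.Prime)
    (hn : 5 ≤ n) (hRF : RF k k₁ P Q ρ) : ¬ D ∣ P := by
  intro hd
  obtain ⟨ι, -⟩ : ∃ ι : k₁ →ₐ[k] SeparableClosure k, ι = ι := ⟨IsSepClosed.lift, rfl⟩
  letI : Algebra k₁ (SeparableClosure k) := ι.toRingHom.toAlgebra
  haveI : IsScalarTower k k₁ (SeparableClosure k) :=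
    IsScalarTower.of_algebraMap_eq fun x => (ι.commutes x).symm
  exact not_dvd (L' := SeparableClosure k) (L := k) H hℓ hn hRF
    ((mapRingHom (algebraMap k k)).map_dvd hd)

end Pool.Agent.J6H65.TW
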