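import Pool.Agent.J6H65.TW.Spc

/-!
Homomorphisms of finitely generated subrings of a field to residue fields of the ground ring.
-/

set_option autoImplicit false
set_option linter.all false

open Polynomial
open scoped Classical

namespace Pool.Agent.J6H65.TW

theorem exists_hom {B FB k₁ : Type} [CommRing B] [IsDomain B] [Infinite B] [Field FB]
    [Algebra B FB] [IsFractionRing B FB] [Field k₁] [Algebra FB k₁]
    (hu : {u : B | IsUnit u}.Finite) (p : ℕ) [ExpChar FB p] (W : Finset k₁) :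
    ∃ (m : Ideal B) (n : ℕ) (ψ : Subring.closure (W : Set k₁) →+* B ⧸ m), m.IsMaximal ∧
      ∀ (b : B) (hb : algebraMap FB k₁ (algebraMap B FB b) ∈ Subring.closure (W : Set k₁)),
        ψ ⟨_, hb⟩ = (Ideal.Quotient.mk m b) ^ (p ^ n) := by
  obtain ⟨S, hS⟩ : ∃ S : Subalgebra FB k₁, S = Algebra.adjoin FB (W : Set k₁) := ⟨_, rfl⟩
  haveI : Algebra.FiniteType FB S := S.fg_iff_finiteType.1 ⟨W, hS.symm⟩
  obtain ⟨M, hM⟩ := Ideal.exists_maximal S
  letI : Field (S ⧸ M) := Ideal.Quotient.field M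
  haveI : Module.Finite FB (S ⧸ M) := finite_of_finite_type_of_isJacobsonRing FB (S ⧸ M)
  haveI : ExpChar (S ⧸ M) p := expChar_of_injective_algebraMap (algebraMap FB (S ⧸ M)).injective p
  haveI : ExpChar (separableClosure FB (S ⧸ M)) p :=
    expChar_of_injective_algebraMap (algebraMap FB (separableClosure FB (S ⧸ M))).injective p
  haveI : IsPurelyInseparable (separableClosure FB (S ⧸ M)) (S ⧸ M) :=
    separableClosure.isPurelyInseparable FB (S ⧸ M)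
  have hWS : ∀ w ∈ W, w ∈ S := fun w hw => by
    rw [hS]
    exact Algebra.subset_adjoin hw
  -- a uniform exponent
  have h1 : ∀ x : S ⧸ M, ∃ n : ℕ, x ^ p ^ n ∈ (algebraMap (separableClosure FB (S ⧸ M)) (S ⧸ M)).range :=
    fun x => IsPurelyInseparable.pow_mem (separableClosure FB (S ⧸ M)) p x
  choose e he using h1
  obtain ⟨n, hn⟩ : ∃ n : ℕ, ∀ w : W, e (Ideal.Quotient.mk M ⟨w.1, hWS _ w.2⟩) ≤ n :=
    ⟨Finset.univ.sup fun w : W => e (Ideal.Quotient.mk M ⟨w.1, hWS _ w.2⟩),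
      fun w => Finset.le_sup (f := fun w : W => e (Ideal.Quotient.mk M ⟨w.1, hWS _ w.2⟩))
        (Finset.mem_univ w)⟩
  have h2 : ∀ w : W, ∃ y : separableClosure FB (S ⧸ M),
      algebraMap (separableClosure FB (S ⧸ M)) (S ⧸ M) y =
        (Ideal.Quotient.mk M ⟨w.1, hWS _ w.2⟩) ^ p ^ n := by
    intro w
    obtain ⟨y, hy⟩ := he (Ideal.Quotient.mk M ⟨w.1, hWS _ w.2⟩)
    refine ⟨y ^ p ^ (n - e (Ideal.Quotient.mk M ⟨w.1, hWS _ w.2⟩)), ?_⟩
    rw [map_pow, hy, ← pow_mul, ← pow_add, Nat.add_sub_cancel' (hn w)]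
  choose y hy using h2
  obtain ⟨m, Λ, ψ, hm, hψW, hb, hψ⟩ := exists_sep (B := B) (FB := FB)
    (Es := separableClosure FB (S ⧸ M)) hu (Finset.univ.image y)
  let ι : separableClosure FB (S ⧸ M) →+* S ⧸ M := algebraMap _ _
  have hι : Function.Injective ι := ι.injective
  let Φ : S →+* S ⧸ M := (iterateFrobenius (S ⧸ M) p n).comp (Ideal.Quotient.mk M)
  have hΦ : ∀ x, Φ x = (Ideal.Quotient.mk M x) ^ p ^ n := fun x => rfl
  have hle : Subring.closure (W : Set k₁) ≤ ((Λ.map ι).comap Φ).map (S.val : S →+* k₁) := by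
    rw [Subring.closure_le]
    intro w hw
    refine ⟨⟨w, hWS w hw⟩, ?_, rfl⟩
    show Φ ⟨w, hWS w hw⟩ ∈ Λ.map ι
    exact ⟨y ⟨w, hw⟩, hψW _ (Finset.mem_image_of_mem _ (Finset.mem_univ _)), hy ⟨w, hw⟩⟩
  have hCS : ∀ x : Subring.closure (W : Set k₁), (x : k₁) ∈ S := by
    intro x
    obtain ⟨z, -, hz⟩ := hle x.2
    have h3 : (z : k₁) = x := hz
    exact h3 ▸ z.2
  let inc : Subring.closure (W : Set k₁) →+* S :=
    (Subring.closure (W : Set k₁)).subtype.codRestrict S hCS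
  have hmem : ∀ x, (Φ.comp inc) x ∈ Λ.map ι := by
    rintro ⟨x, hx⟩
    obtain ⟨z, hz1, hz⟩ := hle hx
    have h3 : inc ⟨x, hx⟩ = z := Subtype.ext hz.symm
    show Φ (inc ⟨x, hx⟩) ∈ _
    rw [h3]
    exact hz1
  let e1 : Λ ≃+* Λ.map ι := Λ.equivMapOfInjective ι hι
  refine ⟨m, n, ψ.comp ((e1.symm : Λ.map ι →+* Λ).comp ((Φ.comp inc).codRestrict (Λ.map ι) hmem)),
    hm, ?_⟩
  intro b hbb
  have h3 : e1.symm (((Φ.comp inc).codRestrict (Λ.map ι) hmem) ⟨_, hbb⟩) = ⟨_, hb b⟩ ^ p ^ n := by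
    rw [RingEquiv.symm_apply_eq]
    apply Subtype.ext
    show Φ (inc ⟨_, hbb⟩) = ι ((⟨_, hb b⟩ ^ p ^ n : Λ) : separableClosure FB (S ⧸ M))
    rw [Subring.coe_pow, map_pow, hΦ]
    congr 1
  show ψ (e1.symm (((Φ.comp inc).codRestrict (Λ.map ι) hmem) ⟨_, hbb⟩)) = _
  rw [h3, map_pow, hψ]

end Pool.Agent.J6H65.TW
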