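import Mathlib

/-!
The field generated by suitable powers of the zeros of a polynomial.
-/

set_option autoImplicit false
set_option linter.all false

open Polynomial
open scoped Classical

namespace Pool.Agent.J6H65.TW

/-- `Q` is `1` or a power of the positive characteristic. -/
def QK (k : Type) [Field k] (Q : ℕ) : Prop := Q = 1 ∨ ∃ p j : ℕ, p.Prime ∧ CharP k p ∧ Q = p ^ j

/-- The `Q`-th powers of the zeros of `P` are among the elements `ρ i` of `k₁`. -/
structure RF (k k₁ : Type) [Field k] [Field k₁] [Algebra k k₁] (P : k[X]) (Q : ℕ) {m : ℕ}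
    (ρ : Fin m → k₁) : Prop where
  q : QK k Q
  inj : Function.Injective ρ
  root : ∀ (Ω : Type) [Field Ω] [Algebra k Ω] [Algebra k₁ Ω] [IsScalarTower k k₁ Ω] (r : Ω),
    aeval r P = 0 → ∃ i, r ^ Q = algebraMap k₁ Ω (ρ i)

theorem exists_rf0 {k : Type} [Field k] {P : k[X]} (hP : P ≠ 0) :
    ∃ (k₁ : Type) (_ : Field k₁) (_ : Algebra k k₁) (_ : FiniteDimensional k k₁)
      (_ : IsGalois k k₁) (i₁ : k₁ →ₐ[k] AlgebraicClosure k) (Q m : ℕ) (ρ : Fin m → k₁),
      QK k Q ∧ Function.Injective ρ ∧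
        ∀ r : AlgebraicClosure k, aeval r P = 0 → ∃ i, r ^ Q = i₁ (ρ i) := by
  obtain ⟨q, hq⟩ := ExpChar.exists k
  haveI := hq
  haveI : IsGalois k (separableClosure k (AlgebraicClosure k)) := inferInstance
  haveI : ExpChar (separableClosure k (AlgebraicClosure k)) q :=
    expChar_of_injective_algebraMap
      (algebraMap k (separableClosure k (AlgebraicClosure k))).injective q
  have h1 : ∀ r : AlgebraicClosure k, ∃ n, r ^ q ^ n ∈ (algebraMap
      (separableClosure k (AlgebraicClosure k)) (AlgebraicClosure k)).range := fun r =>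
    IsPurelyInseparable.pow_mem _ q r
  choose n hn using h1
  obtain ⟨Rt, hRt⟩ : ∃ Rt : Finset (AlgebraicClosure k),
      Rt = (P.map (algebraMap k (AlgebraicClosure k))).roots.toFinset := ⟨_, rfl⟩
  have hPm : P.map (algebraMap k (AlgebraicClosure k)) ≠ 0 :=
    (Polynomial.map_ne_zero_iff (algebraMap k (AlgebraicClosure k)).injective).2 hP
  have hRm : ∀ r, r ∈ Rt ↔ aeval r P = 0 := by
    intro r
    rw [hRt, Multiset.mem_toFinset, mem_roots hPm, IsRoot.def, eval_map_algebraMap]
  obtain ⟨N, hN⟩ : ∃ N, ∀ r ∈ Rt, n r ≤ N := ⟨Rt.sup n, fun r hr => Finset.le_sup hr⟩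
  have h2 : ∀ r ∈ Rt, ∃ y : separableClosure k (AlgebraicClosure k),
      (y : AlgebraicClosure k) = r ^ q ^ N := by
    intro r hr
    obtain ⟨y, hy⟩ := hn r
    refine ⟨y ^ q ^ (N - n r), ?_⟩
    have e1 : ((y ^ q ^ (N - n r) : separableClosure k (AlgebraicClosure k)) :
        AlgebraicClosure k) = (y : AlgebraicClosure k) ^ q ^ (N - n r) := rfl
    have e2 : (y : AlgebraicClosure k) = r ^ q ^ n r := hy
    rw [e1, e2, ← pow_mul, ← pow_add]
    congr 2
    have := hN r hr
    omega
  choose! y hy using h2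
  obtain ⟨K1, hK1⟩ : ∃ K1 : FiniteGaloisIntermediateField k
      (separableClosure k (AlgebraicClosure k)),
      K1 = FiniteGaloisIntermediateField.adjoin k ((Rt.image y : Finset _) : Set _) := ⟨_, rfl⟩
  have hsub : ∀ r ∈ Rt, y r ∈ K1.toIntermediateField := by
    intro r hr
    rw [hK1]
    exact FiniteGaloisIntermediateField.subset_adjoin k _ (Finset.mem_coe.2
      (Finset.mem_image_of_mem _ hr))
  obtain ⟨T, hT⟩ : ∃ T : Finset (separableClosure k (AlgebraicClosure k)), T = Rt.image y :=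
    ⟨_, rfl⟩
  have hTm : ∀ z ∈ T, z ∈ K1.toIntermediateField := by
    intro z hz
    rw [hT, Finset.mem_image] at hz
    obtain ⟨r, hr, rfl⟩ := hz
    exact hsub r hr
  refine ⟨K1.toIntermediateField, inferInstance, inferInstance, inferInstance, inferInstance,
    (IntermediateField.val _).comp (IntermediateField.val _), q ^ N, T.card,
    fun i => ⟨(T.equivFin.symm i : separableClosure k (AlgebraicClosure k)),
      hTm _ (T.equivFin.symm i).2⟩, ?_, ?_, ?_⟩
  · rcases hq with _ | ⟨hp⟩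
    · exact Or.inl (one_pow _)
    · exact Or.inr ⟨q, N, hp, inferInstance, rfl⟩
  · intro i j h
    apply T.equivFin.symm.injective
    apply Subtype.ext
    exact congrArg (fun z : K1.toIntermediateField => (z : separableClosure k (AlgebraicClosure k))) h
  · intro r hr
    have hr' := (hRm r).2 hr
    have h3 : y r ∈ T := by
      rw [hT]
      exact Finset.mem_image_of_mem _ hr'
    refine ⟨T.equivFin ⟨y r, h3⟩, ?_⟩
    rw [← hy r hr']
    have e : ((T.equivFin.symm (T.equivFin ⟨y r, h3⟩) : T) :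
        separableClosure k (AlgebraicClosure k)) = y r := by
      rw [Equiv.symm_apply_apply]
    exact (congrArg (fun z : separableClosure k (AlgebraicClosure k) =>
      (z : AlgebraicClosure k)) e).symm

theorem exists_rf {k : Type} [Field k] {P : k[X]} (hP : P ≠ 0) :
    ∃ (k₁ : Type) (_ : Field k₁) (_ : Algebra k k₁) (_ : FiniteDimensional k k₁)
      (_ : IsGalois k k₁) (Q m : ℕ) (ρ : Fin m → k₁), RF k k₁ P Q ρ := by
  obtain ⟨k₁, i1, i2, i3, i4, i₁, Q, m, ρ, h1, h2, h3⟩ := exists_rf0 hP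
  refine ⟨k₁, i1, i2, i3, i4, Q, m, ρ, h1, h2, ?_⟩
  intro Ω _ _ _ _ r hr
  letI : Algebra k₁ (AlgebraicClosure k) := i₁.toRingHom.toAlgebra
  haveI : IsScalarTower k k₁ (AlgebraicClosure k) :=
    IsScalarTower.of_algebraMap_eq fun x => (i₁.commutes x).symm
  haveI : IsAlgClosed (AlgebraicClosure k) := inferInstance
  have halg : IsAlgebraic k r := ⟨P, hP, hr⟩
  have halg1 : IsAlgebraic k₁ r := halg.tower_top k₁
  haveI : Algebra.IsAlgebraic k₁ (IntermediateField.adjoin k₁ {r}) :=
    IntermediateField.isAlgebraic_adjoin fun x hx => by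
      rw [Set.mem_singleton_iff] at hx
      subst hx
      exact halg1.isIntegral
  obtain ⟨τ, -⟩ : ∃ τ : IntermediateField.adjoin k₁ {r} →ₐ[k₁] AlgebraicClosure k, τ = τ :=
    ⟨IsAlgClosed.lift, rfl⟩
  obtain ⟨r', hr'⟩ : ∃ r' : IntermediateField.adjoin k₁ {r}, (r' : Ω) = r :=
    ⟨⟨r, IntermediateField.mem_adjoin_simple_self k₁ r⟩, rfl⟩
  have e1 : aeval r' (P.map (algebraMap k k₁)) = 0 := by
    apply (algebraMap (IntermediateField.adjoin k₁ {r}) Ω).injective
    rw [← aeval_algebraMap_apply, map_zero, aeval_map_algebraMap]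
    show aeval (r' : Ω) P = 0
    rw [hr']
    exact hr
  have e2 : aeval (τ r') P = 0 := by
    rw [← aeval_map_algebraMap k₁, aeval_algHom_apply, e1, map_zero]
  obtain ⟨i, hi⟩ := h3 _ e2
  refine ⟨i, ?_⟩
  have e3 : τ (r' ^ Q) = τ (algebraMap k₁ _ (ρ i)) := by
    rw [map_pow, hi, τ.commutes]
    rfl
  have e4 := τ.injective e3
  have e5 := congrArg (fun z : IntermediateField.adjoin k₁ {r} => (z : Ω)) e4
  rw [← hr']
  exact e5

end Pool.Agent.J6H65.TW
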