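import Pool.Agent.J6H65.TW.Cnt
import Pool.Agent.J6H65.TW.Rf

/-!
The products of powers of the polynomials `X ^ Q - a` over finite fields.
-/

set_option autoImplicit false
set_option linter.all false

open scoped Classical

namespace Pool.Agent.J6H65.TW

open Polynomial
open Pool.Agent.H435R3.Weil (Cop)

/-- The product. -/
noncomputable def pr {A : Type} [CommRing A] (Q : ℕ) {m : ℕ} (e : A) (a : Fin m → A)
    (s : Fin m → ℕ) : A[X] := ∏ i, (C e * X ^ Q - C (a i)) ^ s i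

theorem pr_map {A B : Type} [CommRing A] [CommRing B] (φ : A →+* B) (Q : ℕ) {m : ℕ} (e : A)
    (a : Fin m → A) (s : Fin m → ℕ) :
    (pr Q e a s).map φ = pr Q (φ e) (fun i => φ (a i)) s := by
  unfold pr
  rw [Polynomial.map_prod]
  refine Finset.prod_congr rfl fun i _ => ?_
  rw [Polynomial.map_pow, Polynomial.map_sub, Polynomial.map_mul, Polynomial.map_pow, map_C, map_C,
    map_X]

theorem QK.pos {k : Type} [Field k] {Q : ℕ} (h : QK k Q) : 0 < Q := by
  rcases h with rfl | ⟨p, j, hp, -, rfl⟩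
  · exact one_pos
  · exact pow_pos hp.pos _

theorem QK.cop {k : Type} [Field k] {Q : ℕ} (h : QK k Q) {ℓ : ℕ} (hℓ : ℓ.Prime)
    (hk : (ℓ : k) ≠ 0) : Nat.Coprime Q ℓ := by
  rcases h with rfl | ⟨p, j, hp, hc, rfl⟩
  · exact Nat.coprime_one_left ℓ
  · apply Nat.Coprime.pow_left
    rw [Nat.coprime_primes hp hℓ]
    rintro rfl
    exact hk (CharP.cast_eq_zero k p)

theorem QK.sub {k : Type} [Field k] {Q : ℕ} (h : QK k Q) {A : Type} [CommRing A] [Algebra k A]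
    (x y : A) : (x - y) ^ Q = x ^ Q - y ^ Q := by
  rcases h with rfl | ⟨p, j, hp, hc, rfl⟩
  · rw [pow_one, pow_one, pow_one]
  · by_cases hA : Nontrivial A
    · haveI := hc
      haveI : CharP A p := charP_of_injective_algebraMap (algebraMap k A).injective p
      haveI : Fact p.Prime := ⟨hp⟩
      exact sub_pow_char_pow (R := A) x y j
    · rw [not_nontrivial_iff_subsingleton] at hA
      exact Subsingleton.elim _ _

theorem QK.root {F : Type} [Field F] [Finite F] {Q : ℕ} (h : QK F Q) (a : F) :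
    ∃ r : F, r ^ Q = a := by
  rcases h with rfl | ⟨p, j, hp, hc, rfl⟩
  · exact ⟨a, pow_one a⟩
  · haveI := hc
    haveI : Fact p.Prime := ⟨hp⟩
    obtain ⟨r, hr⟩ := (iterateFrobeniusEquiv F p j).surjective a
    exact ⟨r, by rw [← hr, iterateFrobeniusEquiv_def]⟩

theorem QK.of {k F : Type} [Field k] [Field F] {Q : ℕ} (h : QK k Q)
    (hc : ∀ p : ℕ, (p : k) = 0 → (p : F) = 0) : QK F Q := by
  rcases h with h | ⟨p, j, hp, hcp, h⟩
  · exact Or.inl h
  · refine Or.inr ⟨p, j, hp, ?_, h⟩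
    rw [CharP.charP_iff_prime_eq_zero hp]
    exact hc p (CharP.cast_eq_zero k p)

section fin

variable {F : Type} [Field F] [Fintype F]

theorem pr_props {ℓ Q m : ℕ} (hℓ : ℓ.Prime) (hF : (ℓ : F) ≠ 0) (hQ : QK F Q) {e : F} (he : e ≠ 0)
    {a : Fin m → F} (ha : Function.Injective a) {s : Fin m → ℕ} (h1 : ∀ i, s i < ℓ)
    (h2 : ∃ i, s i ≠ 0) :
    1 ≤ (pr Q e a s).natDegree ∧ (pr Q e a s).natDegree ≤ m * (ℓ * Q) ∧ Cop ℓ (pr Q e a s) := by
  have hr : ∀ i, ∃ r : F, r ^ Q = a i / e := fun i => hQ.root _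
  choose r hr using hr
  have hrinj : Function.Injective r := by
    intro i j h
    apply ha
    have h1 := hr i
    rw [h, hr j] at h1
    exact ((div_left_inj' he).1 h1).symm
  have e1 : ∀ i, (C e * X ^ Q - C (a i) : F[X]) = C e * (X - C (r i)) ^ Q := by
    intro i
    rw [hQ.sub, ← C_pow, hr, mul_sub, ← C_mul, mul_div_cancel₀ _ he]
  have e2 : ∀ i, (C e * X ^ Q - C (a i) : F[X]) ≠ 0 := by
    intro i
    rw [e1]
    exact mul_ne_zero (C_ne_zero.2 he) (pow_ne_zero _ (X_sub_C_ne_zero _))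
  have e3 : ∀ i, (C e * X ^ Q - C (a i) : F[X]).natDegree = Q := by
    intro i
    rw [e1, natDegree_C_mul he, natDegree_pow, natDegree_X_sub_C, mul_one]
  have e4 : (pr Q e a s).natDegree = ∑ i, s i * Q := by
    unfold pr
    rw [natDegree_prod _ _ fun i _ => pow_ne_zero _ (e2 i)]
    refine Finset.sum_congr rfl fun i _ => ?_
    rw [natDegree_pow, e3]
  obtain ⟨i0, hi0⟩ := h2
  refine ⟨?_, ?_, r i0, ?_⟩
  · rw [e4]
    have h5 : s i0 * Q ≤ ∑ i, s i * Q := Finset.single_le_sum (f := fun i => s i * Q)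
      (fun _ _ => Nat.zero_le _) (Finset.mem_univ i0)
    have h6 : 0 < s i0 * Q := Nat.mul_pos (Nat.pos_of_ne_zero hi0) hQ.pos
    omega
  · rw [e4]
    have h5 : ∑ i : Fin m, s i * Q ≤ ∑ i : Fin m, ℓ * Q :=
      Finset.sum_le_sum fun i _ => Nat.mul_le_mul_right _ (h1 i).le
    rwa [Finset.sum_const, Finset.card_univ, Fintype.card_fin, smul_eq_mul] at h5
  · have h5 : pr Q e a s = (C e) ^ s i0 * ((X - C (r i0)) ^ (Q * s i0) *
        ∏ i ∈ Finset.univ.erase i0, (C e * X ^ Q - C (a i)) ^ s i) := by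
      unfold pr
      rw [← Finset.mul_prod_erase _ _ (Finset.mem_univ i0), e1 i0, mul_pow, ← pow_mul, mul_assoc]
    have h6 : (∏ i ∈ Finset.univ.erase i0, (C e * X ^ Q - C (a i)) ^ s i : F[X]) ≠ 0 :=
      Finset.prod_ne_zero_iff.2 fun i _ => pow_ne_zero _ (e2 i)
    have h7 : rootMultiplicity (r i0)
        (∏ i ∈ Finset.univ.erase i0, (C e * X ^ Q - C (a i)) ^ s i : F[X]) = 0 := by
      apply rootMultiplicity_eq_zero
      rw [IsRoot.def, eval_prod, Finset.prod_eq_zero_iff]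
      rintro ⟨i, hi, h0⟩
      rw [e1, eval_pow] at h0
      have h8 := eq_zero_of_pow_eq_zero h0
      rw [eval_mul, eval_C, eval_pow, eval_sub, eval_X, eval_C] at h8
      rcases mul_eq_zero.1 h8 with h9 | h9
      · exact he h9
      · have h10 := eq_zero_of_pow_eq_zero h9
        exact (Finset.mem_erase.1 hi).1 (hrinj (sub_eq_zero.1 h10)).symm
    have h8 : rootMultiplicity (r i0) ((C e : F[X]) ^ s i0) = 0 := by
      apply rootMultiplicity_eq_zero
      rw [IsRoot.def, ← C_pow, eval_C]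
      exact pow_ne_zero _ he
    have h9 : ((X - C (r i0)) ^ (Q * s i0) : F[X]) ≠ 0 := pow_ne_zero _ (X_sub_C_ne_zero _)
    rw [h5, rootMultiplicity_mul (mul_ne_zero (pow_ne_zero _ (C_ne_zero.2 he))
      (mul_ne_zero h9 h6)), h8, rootMultiplicity_mul (mul_ne_zero h9 h6), h7,
      rootMultiplicity_X_sub_C_pow, zero_add, add_zero]
    refine Nat.Coprime.mul_left (hQ.cop hℓ hF) ?_
    exact ((Nat.Prime.coprime_iff_not_dvd hℓ).2 fun hd =>
      hi0 (Nat.eq_zero_of_dvd_of_lt hd (h1 i0))).symm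

end fin

theorem P1_card {ℓ : ℕ} (hℓ : ℓ.Prime) (Q m n : ℕ) (hn : 2 ≤ n) :
    ∃ (P0 : ℕ) (c : ℝ), 0 < c ∧ ∀ (F : Type) [Field F] [Fintype F], P0 ≤ Fintype.card F →
      ℓ ∣ Fintype.card F - 1 → (ℓ : F) ≠ 0 → QK F Q → ∀ (e : F) (a : Fin m → F) (s : Fin m → ℕ),
      e ≠ 0 → Function.Injective a → (∀ i, s i < ℓ) → (∃ i, s i ≠ 0) →
        c * (Fintype.card F : ℝ) ^ (n + 1) ≤ ((PF ℓ n (pr Q e a s)).ncard : ℝ) := by
  obtain ⟨n', rfl⟩ : ∃ n', n = n' + 2 := ⟨n - 2, by omega⟩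
  obtain ⟨P0, hP0⟩ := PF_card hℓ (m * (ℓ * Q)) n'
  have hpos : (0 : ℝ) < 32 * (n' + 2 : ℝ) ^ (n' + 2) := by positivity
  refine ⟨P0, 1 / (32 * (n' + 2 : ℝ) ^ (n' + 2)), by positivity, ?_⟩
  intro F _ _ hp hd hF hQ e a s he ha h1 h2
  obtain ⟨b1, b2, b3⟩ := pr_props hℓ hF hQ he ha h1 h2
  have h3 := hP0 F hp hd (pr Q e a s) b1 b2 b3
  have h4 : (Fintype.card F : ℝ) ^ (n' + 2 + 1) ≤
      32 * (n' + 2 : ℝ) ^ (n' + 2) * ((PF ℓ (n' + 2) (pr Q e a s)).ncard : ℝ) := by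
    exact_mod_cast h3
  rw [div_mul_eq_mul_div, one_mul, div_le_iff₀ hpos]
  linarith

end Pool.Agent.J6H65.TW
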