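import Pool.Agent.J6H65.TW.Ms

/-!
The values of the irreducible factors of a polynomial.
-/

set_option autoImplicit false
set_option linter.all false

open Polynomial
open scoped Classical

namespace Pool.Agent.J6H65.TW

theorem mult_cop {L Ω : Type} [Field L] [Field Ω] [Algebra L Ω] {π : L[X]} (hπ : Irreducible π)
    {r : Ω} (hr : aeval r π = 0) {ℓ : ℕ} (hℓ : ℓ.Prime) (hL : (ℓ : L) ≠ 0) :
    Nat.Coprime (rootMultiplicity r (π.map (algebraMap L Ω))) ℓ := by
  have h0 : π.map (algebraMap L Ω) ≠ 0 :=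
    (Polynomial.map_ne_zero_iff (algebraMap L Ω).injective).2 hπ.ne_zero
  have hpos : 0 < rootMultiplicity r (π.map (algebraMap L Ω)) := by
    rw [rootMultiplicity_pos h0, IsRoot.def, eval_map_algebraMap, hr]
  have hsep : ∀ g : L[X], g.Separable → ∀ r : Ω,
      rootMultiplicity r (g.map (algebraMap L Ω)) ≤ 1 := fun g hg r =>
    rootMultiplicity_le_one_of_separable (Separable.map hg) r
  obtain ⟨p, hp⟩ := CharP.exists L
  rcases CharP.char_is_prime_or_zero L p with hpp | rfl
  · obtain ⟨j, g, hg, hgπ⟩ := exists_separable_of_irreducible p hπ hpp.ne_zero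
    haveI : Fact p.Prime := ⟨hpp⟩
    haveI : CharP Ω p := charP_of_injective_algebraMap (algebraMap L Ω).injective p
    have h1 : π.map (algebraMap L Ω) = expand Ω (p ^ j) (g.map (algebraMap L Ω)) := by
      rw [← hgπ, map_expand]
    have h2 := rootMultiplicity_expand_pow (p := p) (n := j) (f := g.map (algebraMap L Ω)) (r := r)
    rw [← h1] at h2
    have h3 := hsep g hg (r ^ p ^ j)
    have h4 : rootMultiplicity (r ^ p ^ j) (g.map (algebraMap L Ω)) = 1 := by
      have h5 : rootMultiplicity (r ^ p ^ j) (g.map (algebraMap L Ω)) ≠ 0 := by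
        intro h6
        rw [h6, mul_zero] at h2
        omega
      omega
    rw [h2, h4, mul_one]
    apply Nat.Coprime.pow_left
    rw [Nat.coprime_primes hpp hℓ]
    rintro rfl
    exact hL (CharP.cast_eq_zero L p)
  · haveI : CharZero L := CharP.charP_to_charZero L
    have h1 := hsep π hπ.separable r
    have h2 : rootMultiplicity r (π.map (algebraMap L Ω)) = 1 := by omega
    rw [h2]
    exact Nat.coprime_one_left ℓ

theorem prod_count {Ω : Type} [Field Ω] {m : ℕ} {ρ : Fin m → Ω} (hρ : Function.Injective ρ)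
    (f : Ω → Ω) (x : Ω) (s : Multiset Ω) (hs : ∀ r ∈ s, ∃ i, f r = ρ i) :
    (s.map fun r => x - f r).prod = ∏ i, (x - ρ i) ^ (s.countP fun r => f r = ρ i) := by
  induction s using Multiset.induction_on with
  | empty => simp
  | cons a s ih =>
    obtain ⟨i0, hi0⟩ := hs a (Multiset.mem_cons_self a s)
    rw [Multiset.map_cons, Multiset.prod_cons, ih fun r hr => hs r (Multiset.mem_cons_of_mem hr)]
    have h1 : ∀ i, ((a ::ₘ s).countP fun r => f r = ρ i) =
        (s.countP fun r => f r = ρ i) + if f a = ρ i then 1 else 0 := fun i =>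
      Multiset.countP_cons _ _ _
    have h2 : ∏ i, (x - ρ i) ^ (if f a = ρ i then 1 else 0) = x - f a := by
      rw [Finset.prod_eq_single i0]
      · rw [if_pos hi0, pow_one, hi0]
      · intro j _ hj
        rw [if_neg, pow_zero]
        intro h
        exact hj (hρ (by rw [← h, hi0]))
      · intro h
        exact absurd (Finset.mem_univ _) h
    rw [← h2, ← Finset.prod_mul_distrib]
    refine Finset.prod_congr rfl fun i _ => ?_
    rw [h1, pow_add, mul_comm]

section

variable {k k₁ L L' : Type} [Field k] [Field k₁] [Algebra k k₁] [Field L] [Field L'] [Algebra k L]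
  [Algebra L L'] [Algebra k L'] [IsScalarTower k L L'] [Algebra k₁ L'] [IsScalarTower k k₁ L']

theorem exists_mult {P : k[X]} {Q m : ℕ} {ρ : Fin m → k₁} (hRF : RF k k₁ P Q ρ) {ℓ : ℕ}
    (hℓ : ℓ.Prime) (hL : (ℓ : L) ≠ 0) {T : Finset L[X]}
    (hT : ∀ π ∈ T, Irreducible π ∧ π.Monic ∧ π ∣ P.map (algebraMap k L)) :
    ∃ b : L[X] → Fin m → ℕ,
      (∀ π ∈ T, ∀ x : L', (aeval x π) ^ Q = ∏ i, (x ^ Q - algebraMap k₁ L' (ρ i)) ^ b π i) ∧
      ∀ a : L[X] → ℕ, (∀ i, ℓ ∣ ∑ π ∈ T, a π * b π i) → ∀ π ∈ T, ℓ ∣ a π := by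
  obtain ⟨ρ', hρ'⟩ : ∃ ρ' : Fin m → AlgebraicClosure L', ∀ i,
      ρ' i = algebraMap k₁ (AlgebraicClosure L') (ρ i) := ⟨_, fun _ => rfl⟩
  have hinj : Function.Injective ρ' := by
    intro i j h
    rw [hρ', hρ'] at h
    exact hRF.inj ((algebraMap k₁ (AlgebraicClosure L')).injective h)
  haveI : IsScalarTower k L (AlgebraicClosure L') := by
    refine IsScalarTower.of_algebraMap_eq fun x => ?_
    rw [IsScalarTower.algebraMap_apply k L' (AlgebraicClosure L'),
      IsScalarTower.algebraMap_apply k L L', ← IsScalarTower.algebraMap_apply L L']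
  haveI : IsScalarTower k k₁ (AlgebraicClosure L') := by
    refine IsScalarTower.of_algebraMap_eq fun x => ?_
    rw [IsScalarTower.algebraMap_apply k L' (AlgebraicClosure L'),
      IsScalarTower.algebraMap_apply k k₁ L', ← IsScalarTower.algebraMap_apply k₁ L']
  have hPr : ∀ π ∈ T, ∀ r : AlgebraicClosure L', aeval r π = 0 → ∃ i, r ^ Q = ρ' i := by
    intro π hπ r hr
    obtain ⟨q, hq⟩ := (hT π hπ).2.2
    have h1 : aeval r P = 0 := by
      rw [← aeval_map_algebraMap L, hq, map_mul, hr, zero_mul]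
    obtain ⟨i, hi⟩ := hRF.root _ r h1
    exact ⟨i, by rw [hρ', hi]⟩
  have hsub : ∀ x y : AlgebraicClosure L', (x - y) ^ Q = x ^ Q - y ^ Q := fun x y => hRF.q.sub x y
  have hfr : ∀ x y : AlgebraicClosure L', x ^ Q = y ^ Q → x = y := by
    intro x y h
    have h1 := hsub x y
    rw [h, sub_self] at h1
    exact sub_eq_zero.1 (eq_zero_of_pow_eq_zero h1)
  have hm0 : ∀ π ∈ T, π.map (algebraMap L (AlgebraicClosure L')) ≠ 0 := fun π hπ =>
    (Polynomial.map_ne_zero_iff (algebraMap L (AlgebraicClosure L')).injective).2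
      (hT π hπ).1.ne_zero
  have hroots : ∀ π ∈ T, ∀ r, r ∈ (π.map (algebraMap L (AlgebraicClosure L'))).roots ↔
      aeval r π = 0 := by
    intro π hπ r
    rw [mem_roots (hm0 π hπ), IsRoot.def, eval_map_algebraMap]
  refine ⟨fun π i => (π.map (algebraMap L (AlgebraicClosure L'))).roots.countP
    fun r => r ^ Q = ρ' i, ?_, ?_⟩
  · intro π hπ x
    apply (algebraMap L' (AlgebraicClosure L')).injective
    have h1 : (π.map (algebraMap L (AlgebraicClosure L'))) =
        ((π.map (algebraMap L (AlgebraicClosure L'))).roots.map fun r => X - C r).prod := by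
      have hs : (π.map (algebraMap L (AlgebraicClosure L'))).Splits := IsAlgClosed.splits _
      have h2 := hs.eq_prod_roots
      rw [((hT π hπ).2.1.map _).leadingCoeff, C_1, one_mul] at h2
      exact h2
    have h3 : aeval (algebraMap L' (AlgebraicClosure L') x) π =
        ((π.map (algebraMap L (AlgebraicClosure L'))).roots.map fun r =>
          algebraMap L' (AlgebraicClosure L') x - r).prod := by
      rw [← eval_map_algebraMap]
      conv_lhs => rw [h1]
      rw [eval_multiset_prod, Multiset.map_map]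
      congr 1
      refine Multiset.map_congr rfl fun r _ => ?_
      rw [Function.comp_apply, eval_sub, eval_X, eval_C]
    rw [map_pow, ← aeval_algebraMap_apply, h3, ← Multiset.prod_map_pow]
    have h4 := prod_count hinj (fun r => r ^ Q) (algebraMap L' (AlgebraicClosure L') x ^ Q)
      (π.map (algebraMap L (AlgebraicClosure L'))).roots
      fun r hr => hPr π hπ r ((hroots π hπ r).1 hr)
    rw [Multiset.map_congr rfl fun r _ => hsub _ r, h4, map_prod]
    refine Finset.prod_congr rfl fun i _ => ?_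
    rw [map_pow, map_sub, map_pow, ← IsScalarTower.algebraMap_apply k₁ L', ← hρ']
  · intro a ha π hπ
    obtain ⟨r, hr⟩ : ∃ r : AlgebraicClosure L', aeval r π = 0 := by
      apply IsAlgClosed.exists_aeval_eq_zero
      exact (degree_pos_of_irreducible (hT π hπ).1).ne'
    obtain ⟨i, hi⟩ := hPr π hπ r hr
    have h1 := ha i
    have h2 : ∀ π' ∈ T, π' ≠ π → a π' *
        (π'.map (algebraMap L (AlgebraicClosure L'))).roots.countP (fun r => r ^ Q = ρ' i) = 0 := by
      intro π' hπ' hne
      rw [mul_eq_zero]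
      right
      rw [Multiset.countP_eq_zero]
      intro r' hr' h3
      have h4 : r' = r := hfr r' r (by rw [h3, hi])
      have h5 := (hroots π' hπ' r').1 hr'
      rw [h4] at h5
      apply hne
      rw [minpoly.eq_of_irreducible_of_monic (hT π hπ).1 hr (hT π hπ).2.1,
        minpoly.eq_of_irreducible_of_monic (hT π' hπ').1 h5 (hT π' hπ').2.1]
    rw [Finset.sum_eq_single π (fun π' h3 h4 => h2 π' h3 h4) (fun h => absurd hπ h)] at h1
    have h3 : (π.map (algebraMap L (AlgebraicClosure L'))).roots.countP (fun r => r ^ Q = ρ' i) =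
        rootMultiplicity r (π.map (algebraMap L (AlgebraicClosure L'))) := by
      rw [← count_roots]
      unfold Multiset.count
      refine Multiset.countP_congr rfl fun r' _ => ?_
      rw [← hi]
      exact propext ⟨fun h => (hfr _ _ h).symm, fun h => by rw [h]⟩
    rw [h3] at h1
    exact (Nat.Coprime.dvd_of_dvd_mul_right (mult_cop (hT π hπ).1 hr hℓ hL).symm h1)

end

end Pool.Agent.J6H65.TW
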