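import Pool.Agent.J6H65.SG.PairL

/-!
The separable elements of a compositum.
-/

set_option autoImplicit false
set_option linter.all false

open Polynomial
open scoped Classical

namespace Pool.Agent.J6H65.TW

open Pool.Agent.X243.Gen Pool.Agent.X243.Sol

section

variable {k k₁ L L₁ L' : Type} [Field k] [Field k₁] [Algebra k k₁] [FiniteDimensional k k₁]
  [Algebra.IsSeparable k k₁] [Field L] [Field L'] [Algebra k L] [Algebra L L'] [Algebra k L']
  [IsScalarTower k L L'] [IsSepClosure L L'] [Algebra k₁ L'] [IsScalarTower k k₁ L'] [Field L₁]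
  [Algebra k₁ L₁] [Algebra L₁ L'] [IsScalarTower k₁ L₁ L']

theorem hM1 (S : IntermediateField k₁ L')
    (hS : ∀ x : L, IsSeparable k x → algebraMap L L' x ∈ S)
    (hgen : ∀ g : L' ≃ₐ[L] L', (∀ y : k₁, g (algebraMap k₁ L' y) = algebraMap k₁ L' y) →
      ∀ x : L₁, g (algebraMap L₁ L' x) = algebraMap L₁ L' x) (x : L₁) (hx : IsSeparable k₁ x) :
    algebraMap L₁ L' x ∈ S := by
  haveI : IsSepClosed L' := IsSepClosure.sep_closed L
  haveI : IsGalois L L' := IsSepClosure.isGalois
  obtain ⟨M, hM⟩ : ∃ M : IntermediateField k L', ∀ y, y ∈ M ↔ y ∈ S :=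
    ⟨S.restrictScalars k, fun y => Iff.rfl⟩
  have hMk : ∀ y : L, IsSeparable k y → algebraMap L L' y ∈ M := by
    intro y hy
    rw [hM]
    exact hS y hy
  have hM₁ : ∀ y : k₁, algebraMap k₁ L' y ∈ M := fun y => by
    rw [hM]
    exact S.algebraMap_mem y
  obtain ⟨x', hx'⟩ : ∃ x', x' = algebraMap L₁ L' x := ⟨_, rfl⟩
  have hxs : IsSeparable k x' := by
    have h1 : IsSeparable k₁ x' := by
      have h2 : minpoly k₁ x' = minpoly k₁ x := by
        rw [hx']
        exact minpoly.algebraMap_eq (algebraMap L₁ L').injective x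
      show (minpoly k₁ x').Separable
      rw [h2]
      exact hx
    exact IsSeparable.of_algebra_isSeparable_of_isSeparable k h1
  obtain ⟨α, hα⟩ := Field.exists_primitive_element k k₁
  obtain ⟨α', hα'⟩ : ∃ α', α' = algebraMap k₁ L' α := ⟨_, rfl⟩
  have hαs : IsSeparable k α' := by
    have h2 : minpoly k α' = minpoly k α := by
      rw [hα']
      exact minpoly.algebraMap_eq (algebraMap k₁ L').injective α
    show (minpoly k α').Separable
    rw [h2]
    exact Algebra.IsSeparable.isSeparable k α
  obtain ⟨P, hP⟩ : ∃ P : k[X], P = minpoly k x' * minpoly k α' := ⟨_, rfl⟩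
  have hP0 : P ≠ 0 := by
    rw [hP]
    exact mul_ne_zero (minpoly.ne_zero hxs.isIntegral) (minpoly.ne_zero hαs.isIntegral)
  have hPspl : (P.map (algebraMap k L')).Splits := by
    rw [hP, Polynomial.map_mul]
    exact (IsSepClosed.splits_of_separable _ (Separable.map hxs)).mul
      (IsSepClosed.splits_of_separable _ (Separable.map hαs))
  obtain ⟨N, hN⟩ : ∃ N : IntermediateField k L', N = IntermediateField.adjoin k (P.rootSet L') :=
    ⟨_, rfl⟩
  haveI hNs : IsSplittingField k N P := by
    rw [hN]
    exact IntermediateField.adjoin_rootSet_isSplittingField hPspl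
  haveI hNf : FiniteDimensional k N := IsSplittingField.finiteDimensional N P
  have hPsep : ∀ w ∈ P.rootSet L', IsSeparable k w := by
    intro w hw
    have h1 := aeval_eq_zero_of_mem_rootSet hw
    rw [hP, map_mul, mul_eq_zero] at h1
    rcases h1 with h1 | h1
    · exact Separable.of_dvd hxs (minpoly.dvd _ _ h1)
    · exact Separable.of_dvd hαs (minpoly.dvd _ _ h1)
  haveI hNsep : Algebra.IsSeparable k N := by
    rw [hN]
    exact (IntermediateField.isSeparable_adjoin_iff_isSeparable k L').2 hPsep
  haveI hNn : Normal k N := Normal.of_isSplittingField P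
  haveI hNg : IsGalois k N := ⟨⟩
  have hNmem : ∀ w ∈ P.rootSet L', w ∈ N := by
    intro w hw
    rw [hN]
    exact IntermediateField.subset_adjoin _ _ hw
  have hxN : x' ∈ N := by
    apply hNmem
    rw [mem_rootSet]
    exact ⟨hP0, by rw [hP, map_mul, minpoly.aeval, zero_mul]⟩
  have hαN : α' ∈ N := by
    apply hNmem
    rw [mem_rootSet]
    exact ⟨hP0, by rw [hP, map_mul, minpoly.aeval, mul_zero]⟩
  have hk₁N : ∀ y : k₁, algebraMap k₁ L' y ∈ N := by
    intro y
    have hy : y ∈ IntermediateField.adjoin k {α} := by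
      rw [hα]
      trivial
    induction hy using IntermediateField.adjoin_induction with
    | mem z hz =>
      rw [Set.mem_singleton_iff] at hz
      rw [hz, ← hα']
      exact hαN
    | algebraMap r =>
      rw [← IsScalarTower.algebraMap_apply]
      exact N.algebraMap_mem r
    | add z w _ _ hz hw => rw [map_add]; exact add_mem hz hw
    | inv z _ hz => rw [map_inv₀]; exact inv_mem hz
    | mul z w _ _ hz hw => rw [map_mul]; exact mul_mem hz hw
  obtain ⟨xN, hxN'⟩ : ∃ xN : N, (xN : L') = x' := ⟨⟨x', hxN⟩, rfl⟩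
  have hfix : xN ∈ ME N M := by
    rw [← IsGalois.fixedField_fixingSubgroup (ME N M), IntermediateField.mem_fixedField_iff]
    intro g hg
    obtain ⟨g', hg'⟩ := lift_fix' (L := L) (L' := L') M hMk hg
    have h1 : ∀ y : k₁, g' (algebraMap k₁ L' y) = algebraMap k₁ L' y := by
      intro y
      have h2 := hg' ⟨algebraMap k₁ L' y, hk₁N y⟩
      have h3 : g ⟨algebraMap k₁ L' y, hk₁N y⟩ = ⟨algebraMap k₁ L' y, hk₁N y⟩ := by
        rw [IntermediateField.mem_fixingSubgroup_iff] at hg
        apply hg
        rw [mem_ME]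
        exact hM₁ y
      rw [h3] at h2
      exact h2
    have h2 := hgen g' h1 x
    have h3 := hg' xN
    apply Subtype.ext
    show (g xN : L') = xN
    rw [hxN', hx', ← h2, ← hx', ← hxN']
    exact h3.symm
  rw [mem_ME] at hfix
  have h4 : x' ∈ M := by
    rw [← hxN']
    exact hfix
  rw [← hx']
  exact (hM x').1 h4

end

end Pool.Agent.J6H65.TW
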