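import Pool.Agent.J6H65.TW.Sv
import Pool.Agent.J6H65.TW.Sol
import Pool.Agent.J6H65.TW.Cmp
import Pool.Agent.J6H65.TW.Mult

/-!
The products of powers of the irreducible factors of a polynomial modulo a general polynomial.
-/

set_option autoImplicit false
set_option linter.all false

open Polynomial
open scoped Classical

namespace Pool.Agent.J6H65.TW

open Pool.Agent.X243.Gen Pool.Agent.X243.Sol
open Pool.Agent.J6H65.SG

section

variable {k k₁ L' : Type} [Field k] [Field k₁] [Algebra k k₁] [Field L'] [Algebra k L']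
  [Algebra k₁ L'] [IsScalarTower k k₁ L'] [IsSepClosed L']

theorem ne_val {ℓ n Q m : ℕ} {ρ : Fin m → k₁} {D : k[X]} (H : HyT ℓ n Q ρ D) (hℓ : ℓ.Prime)
    (hn : 5 ≤ n) {x : L'} (hx : aeval x D = 0) (i : Fin m) :
    x ^ Q - algebraMap k₁ L' (ρ i) ≠ 0 := by
  have h1 := H.np (fun j => if j = i then 1 else 0) (fun j => by
    split_ifs
    · exact hℓ.one_lt
    · exact hℓ.pos) ⟨i, by
      rw [if_pos rfl]
      exact one_ne_zero⟩
  have h2 : (∏ j, (X ^ Q - C (ρ j)) ^ (if j = i then 1 else 0) : k₁[X]) = X ^ Q - C (ρ i) := by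
    rw [Finset.prod_eq_single i]
    · rw [if_pos rfl, pow_one]
    · intro j _ hj
      rw [if_neg hj, pow_zero]
    · intro h
      exact absurd (Finset.mem_univ _) h
  rw [h2] at h1
  have h3 := ne_of_nopow (L' := L') H.f1.2.1 (by rw [H.f1.1.2]; omega) h1 x (by
    rw [mem_rootSet]
    exact ⟨H.f1.2.1.ne_zero, by rw [aeval_map_algebraMap, hx]⟩)
  rw [map_sub, map_pow, aeval_X, aeval_C] at h3
  exact h3

theorem exists_root {ℓ n Q m : ℕ} {ρ : Fin m → k₁} {D : k[X]} (H : HyT ℓ n Q ρ D)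
    (hn : 5 ≤ n) : ∃ x y : L', x ≠ y ∧ aeval x D = 0 ∧ aeval y D = 0 := by
  have hspl : (D.map (algebraMap k L')).Splits :=
    IsSepClosed.splits_of_separable _ (Separable.map H.f0.2.1)
  have hcard : Fintype.card (D.rootSet L') = D.natDegree :=
    card_rootSet_eq_natDegree H.f0.2.1 hspl
  obtain ⟨x, y, hxy⟩ : ∃ x y : D.rootSet L', x ≠ y := by
    apply Fintype.exists_pair_of_one_lt_card
    have := H.f0.1.2
    omega
  exact ⟨x, y, fun h => hxy (Subtype.ext h), aeval_eq_zero_of_mem_rootSet x.2,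
    aeval_eq_zero_of_mem_rootSet y.2⟩

theorem not_dvd {ℓ n Q m : ℕ} {ρ : Fin m → k₁} {D P : k[X]} (H : HyT ℓ n Q ρ D) (hℓ : ℓ.Prime)
    (hn : 5 ≤ n) (hRF : RF k k₁ P Q ρ) {L : Type} [Field L] [Algebra k L] [Algebra L L']
    [IsScalarTower k L L'] : ¬ D.map (algebraMap k L) ∣ P.map (algebraMap k L) := by
  rintro ⟨q, hq⟩
  obtain ⟨x, -, -, hx, -⟩ := exists_root (L' := L') H hn
  have h1 : aeval x P = 0 := by
    rw [← aeval_map_algebraMap L, hq, map_mul, aeval_map_algebraMap, hx, zero_mul]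
  obtain ⟨i, hi⟩ := hRF.root L' x h1
  exact ne_val H hℓ hn hx i (sub_eq_zero.2 hi)

end

section

variable {k k₁ L L₁ L' : Type} [Field k] [Field k₁] [Algebra k k₁] [FiniteDimensional k k₁]
  [IsGalois k k₁] [Field L] [Field L'] [Algebra k L] [Algebra L L'] [Algebra k L']
  [IsScalarTower k L L'] [IsSepClosure L L'] [Algebra k₁ L'] [IsScalarTower k k₁ L'] [Field L₁]
  [Algebra k₁ L₁] [Algebra L₁ L'] [IsScalarTower k₁ L₁ L'] [Algebra L L₁] [IsScalarTower L L₁ L']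
  [IsSepClosure L₁ L']

theorem pws_L {ℓ n Q m : ℕ} {ρ : Fin m → k₁} {D P : k[X]} (H : HyT ℓ n Q ρ D) (hℓ : ℓ.Prime)
    (hn : 5 ≤ n) (hk : (ℓ : k) ≠ 0) {ζ : k} (hζ : IsPrimitiveRoot ζ ℓ) (hRF : RF k k₁ P Q ρ)
    (M : IntermediateField k L') [Normal k M]
    (hM : ∀ x : L, IsSeparable k x → algebraMap L L' x ∈ M)
    (hns : ¬ (D.map (algebraMap k M)).Splits)
    (hgen : ∀ g : L' ≃ₐ[L] L', (∀ y : k₁, g (algebraMap k₁ L' y) = algebraMap k₁ L' y) →
      ∀ x : L₁, g (algebraMap L₁ L' x) = algebraMap L₁ L' x) {T : Finset L[X]}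
    (hT : ∀ π ∈ T, Irreducible π ∧ π.Monic ∧ π ∣ P.map (algebraMap k L)) (c : L)
    (a : L[X] → ℕ) (z : L[X]) (hc : c ≠ 0)
    (hz : D.map (algebraMap k L) ∣ C c * ∏ π ∈ T, π ^ a π - z ^ ℓ) : ∀ π ∈ T, ℓ ∣ a π := by
  haveI : IsSepClosed L' := IsSepClosure.sep_closed L
  have hL : (ℓ : L) ≠ 0 := by
    rw [← map_natCast (algebraMap k L)]
    exact (_root_.map_ne_zero _).2 hk
  have hk₁ : (ℓ : k₁) ≠ 0 := by
    rw [← map_natCast (algebraMap k k₁)]
    exact (_root_.map_ne_zero _).2 hk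
  have hζ₁ : IsPrimitiveRoot (algebraMap k k₁ ζ) ℓ :=
    hζ.map_of_injective (algebraMap k k₁).injective
  obtain ⟨b, hb1, hb2⟩ := exists_mult (L' := L') hRF hℓ hL hT
  apply hb2 a
  obtain ⟨S, hS⟩ : ∃ S : Fin m → ℕ, ∀ i, S i = ∑ π ∈ T, a π * b π i := ⟨_, fun _ => rfl⟩
  intro i0
  rw [← hS]
  by_contra hnd
  have hnp := H.np (fun i => S i % ℓ) (fun i => Nat.mod_lt _ hℓ.pos)
    ⟨i0, fun h => hnd (Nat.dvd_of_mod_eq_zero h)⟩
  obtain ⟨f, hf⟩ : ∃ f : k₁[X], f = ∏ i, (X ^ Q - C (ρ i)) ^ (S i % ℓ) := ⟨_, rfl⟩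
  rw [← hf] at hnp
  obtain ⟨x, y, hxy, hx, hy⟩ := exists_root (L' := L') H hn
  have hfv : ∀ w : L', aeval w f = ∏ i, (w ^ Q - algebraMap k₁ L' (ρ i)) ^ (S i % ℓ) := by
    intro w
    rw [hf, map_prod]
    refine Finset.prod_congr rfl fun i _ => ?_
    rw [map_pow, map_sub, map_pow, aeval_X, aeval_C]
  obtain ⟨h, hh⟩ : ∃ h : L' → L', ∀ w, h w =
      ∏ i, (w ^ Q - algebraMap k₁ L' (ρ i)) ^ (S i / ℓ) := ⟨_, fun _ => rfl⟩
  have hh0 : ∀ w : L', aeval w D = 0 → h w ≠ 0 := by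
    intro w hw
    rw [hh]
    exact Finset.prod_ne_zero_iff.2 fun i _ => pow_ne_zero _ (ne_val H hℓ hn hw i)
  have hf0 : ∀ w : L', aeval w D = 0 → aeval w f ≠ 0 := by
    intro w hw
    rw [hfv]
    exact Finset.prod_ne_zero_iff.2 fun i _ => pow_ne_zero _ (ne_val H hℓ hn hw i)
  have hcL : algebraMap L L' c ≠ 0 := (_root_.map_ne_zero _).2 hc
  have hval : ∀ w : L', aeval w D = 0 →
      algebraMap L L' c ^ Q * (aeval w f * h w ^ ℓ) = (aeval w z ^ Q) ^ ℓ := by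
    intro w hw
    obtain ⟨q, hq⟩ := hz
    have h1 := congrArg (aeval w) hq
    rw [map_mul, aeval_map_algebraMap, hw, zero_mul, map_sub, map_mul, aeval_C, map_pow, map_prod,
      sub_eq_zero] at h1
    rw [← pow_mul, mul_comm Q ℓ, pow_mul, ← h1, mul_pow, ← Finset.prod_pow]
    congr 1
    have h2 : ∏ π ∈ T, (aeval w) (π ^ a π) ^ Q =
        ∏ i, (w ^ Q - algebraMap k₁ L' (ρ i)) ^ S i := by
      have h3 : ∀ π ∈ T, (aeval w) (π ^ a π) ^ Q =
          ∏ i, (w ^ Q - algebraMap k₁ L' (ρ i)) ^ (a π * b π i) := by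
        intro π hπ
        rw [map_pow, ← pow_mul, mul_comm, pow_mul, hb1 π hπ w, ← Finset.prod_pow]
        refine Finset.prod_congr rfl fun i _ => ?_
        rw [← pow_mul, mul_comm (a π)]
      rw [Finset.prod_congr rfl h3, Finset.prod_comm]
      refine Finset.prod_congr rfl fun i _ => ?_
      rw [Finset.prod_pow_eq_pow_sum, hS]
    rw [h2, hfv, hh, ← Finset.prod_pow, ← Finset.prod_mul_distrib]
    refine Finset.prod_congr rfl fun i _ => ?_
    rw [← pow_mul, ← pow_add, mul_comm (S i / ℓ), Nat.mod_add_div]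
  have hz0 : ∀ w : L', aeval w D = 0 → aeval w z ≠ 0 := by
    intro w hw h0
    have h1 := hval w hw
    rw [h0, zero_pow hRF.q.pos.ne', zero_pow hℓ.ne_zero] at h1
    exact mul_ne_zero (pow_ne_zero _ hcL) (mul_ne_zero (hf0 w hw) (pow_ne_zero _ (hh0 w hw))) h1
  obtain ⟨w, hw⟩ : ∃ w : L', w = (aeval x z ^ Q / h x) / (aeval y z ^ Q / h y) := ⟨_, rfl⟩
  have hmem : ∀ v : L', aeval v D = 0 → v ∈ (D.map (algebraMap k k₁)).rootSet L' := by
    intro v hv
    rw [mem_rootSet]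
    exact ⟨H.f1.2.1.ne_zero, by rw [aeval_map_algebraMap, hv]⟩
  haveI := normal_cmp (k₁ := k₁) M
  obtain ⟨g, g1, g2, g3⟩ := pair_L (k := k₁) (L := L₁) (L' := L') H.f1.2.1
    (by rw [H.f1.1.2]; omega) H.f1.2.2 (IntermediateField.adjoin k₁ (M : Set L'))
    (hM1 (L := L) (L₁ := L₁) (IntermediateField.adjoin k₁ (M : Set L'))
      (fun x hx => IntermediateField.subset_adjoin _ _ (hM x hx)) hgen)
    (not_splits_cmp M H.f0.2.1 (by rw [H.f0.1.2]; omega) H.f1.2.2 hns) hℓ.pos hk₁ hζ₁ hnp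
    (hmem x hx) (hmem y hy) hxy (z := w) (by
      have e1 := hval x hx
      have e2 := hval y hy
      have n1 := hh0 x hx
      have n2 := hh0 y hy
      have n3 := hz0 x hx
      have n4 := hz0 y hy
      have n5 := hf0 y hy
      have n6 : algebraMap L L' c ^ Q ≠ 0 := pow_ne_zero _ hcL
      have e3 : aeval x f = (aeval x z ^ Q / h x) ^ ℓ / algebraMap L L' c ^ Q := by
        rw [eq_div_iff n6, div_pow, eq_div_iff (pow_ne_zero _ n1), ← e1]
        ring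
      have e4 : aeval y f = (aeval y z ^ Q / h y) ^ ℓ / algebraMap L L' c ^ Q := by
        rw [eq_div_iff n6, div_pow, eq_div_iff (pow_ne_zero _ n2), ← e2]
        ring
      have n7 : (aeval y z ^ Q / h y) ^ ℓ ≠ 0 := pow_ne_zero _ (div_ne_zero (pow_ne_zero _ n4) n2)
      rw [hw, e3, e4, div_pow (aeval x z ^ Q / h x), div_mul_div_comm, mul_comm,
        mul_div_mul_left _ _ n7])
  apply g3
  have hg1 : ∀ (v : L') (π : L[X]), g v = v → g (aeval v π) = aeval v π := by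
    intro v π hv
    have h1 : aeval v π = aeval v (π.map (algebraMap L L₁)) := (aeval_map_algebraMap L₁ v π).symm
    rw [h1]
    have h2 := aeval_algHom_apply g v (π.map (algebraMap L L₁))
    rw [hv] at h2
    exact h2.symm
  have hg2 : ∀ v : L', g v = v → g (h v) = h v := by
    intro v hv
    rw [hh, map_prod]
    refine Finset.prod_congr rfl fun i _ => ?_
    rw [map_pow, map_sub, map_pow, hv, IsScalarTower.algebraMap_apply k₁ L₁ L', g.commutes]
  rw [hw, map_div₀, map_div₀, map_div₀, map_pow, map_pow, hg1 _ _ g1, hg1 _ _ g2, hg2 _ g1,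
    hg2 _ g2]

end

end Pool.Agent.J6H65.TW
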