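import Mathlib

/-!
Polynomials have zeros modulo maximal ideals, over infinite domains with finitely many units.
-/

set_option autoImplicit false
set_option linter.all false

open Polynomial

namespace Pool.Agent.J6H65.TW

theorem exists_nonunit {B : Type} [CommRing B] [IsDomain B] [Infinite B]
    (hu : {u : B | IsUnit u}.Finite) {v : B[X]} (hv : 1 ≤ v.natDegree) :
    ∃ b : B, ¬ IsUnit (v.eval b) := by
  classical
  by_contra hcon
  push Not at hcon
  have h1 : (Set.univ : Set B) ⊆ ((hu.toFinset.biUnion fun u => (v - C u).roots.toFinset) : Finset B) := by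
    intro b _
    rw [Finset.mem_coe, Finset.mem_biUnion]
    refine ⟨v.eval b, hu.mem_toFinset.2 (hcon b), ?_⟩
    rw [Multiset.mem_toFinset, mem_roots, IsRoot.def, eval_sub, eval_C, sub_self]
    intro h0
    have h2 : v.natDegree = 0 := by
      rw [sub_eq_zero.1 h0, natDegree_C]
    omega
  exact Set.infinite_univ ((Finset.finite_toSet _).subset h1)

theorem schur {B : Type} [CommRing B] [IsDomain B] [Infinite B]
    (hu : {u : B | IsUnit u}.Finite) {h : B[X]} (hh : 1 ≤ h.natDegree) {c : B} (hc : c ≠ 0) :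
    ∃ (m : Ideal B) (a : B), m.IsMaximal ∧ c ∉ m ∧ h.eval a ∈ m := by
  obtain ⟨h0, hh0⟩ : ∃ h0, h0 = h.coeff 0 := ⟨_, rfl⟩
  by_cases h00 : h0 = 0
  · obtain ⟨b, hb⟩ := exists_nonunit hu (v := C c * X + C 1) (by
      rw [natDegree_linear hc])
    obtain ⟨m, hm, hbm⟩ := exists_max_ideal_of_mem_nonunits (show _ ∈ nonunits B from hb)
    refine ⟨m, 0, hm, fun hcm => ?_, ?_⟩
    · apply hm.ne_top
      rw [Ideal.eq_top_iff_one]
      have h2 : (1 : B) = (C c * X + C 1 : B[X]).eval b - c * b := by
        simp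
      rw [h2]
      exact m.sub_mem hbm (m.mul_mem_right _ hcm)
    · rw [← coeff_zero_eq_eval_zero, ← hh0, h00]
      exact m.zero_mem
  · obtain ⟨v, hv⟩ : ∃ v : B[X], v = 1 + C c * X * (divX h).comp (C (c * h0) * X) := ⟨_, rfl⟩
    have e1 : C h0 * v = h.comp (C (c * h0) * X) := by
      conv_rhs => rw [← divX_mul_X_add h]
      rw [add_comp, mul_comp, X_comp, C_comp, hv, ← hh0, C_mul]
      ring
    have h1 : 1 ≤ v.natDegree := by
      have h2 := congrArg natDegree e1
      rw [natDegree_C_mul h00, natDegree_comp, natDegree_C_mul_X _ (mul_ne_zero hc h00),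
        mul_one] at h2
      rw [h2]
      exact hh
    obtain ⟨b, hb⟩ := exists_nonunit hu h1
    obtain ⟨m, hm, hbm⟩ := exists_max_ideal_of_mem_nonunits (show _ ∈ nonunits B from hb)
    refine ⟨m, c * h0 * b, hm, fun hcm => ?_, ?_⟩
    · apply hm.ne_top
      rw [Ideal.eq_top_iff_one]
      have h2 : (1 : B) = v.eval b - c * (b * ((divX h).comp (C (c * h0) * X)).eval b) := by
        rw [hv, eval_add, eval_mul, eval_mul, eval_C, eval_X, eval_one]
        ring
      rw [h2]
      exact m.sub_mem hbm (m.mul_mem_right _ hcm)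
    · have h2 := congrArg (eval b) e1
      rw [eval_mul, eval_C, eval_comp, eval_mul, eval_C, eval_X] at h2
      rw [← h2]
      exact m.mul_mem_left _ hbm

end Pool.Agent.J6H65.TW
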