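import Pool.Agent.J6H65.TW.Sv

/-!
The sieve for the zeros of a polynomial.
-/

set_option autoImplicit false
set_option linter.all false

open Polynomial
open scoped Classical

namespace Pool.Agent.J6H65.TW

open Pool.Agent.Y160.T3

theorem sieveP (R k : Type) [CommRing R] [IsDomain R] [IsIntegrallyClosed R]
    [Algebra.FiniteType ℤ R] [Field k] [Algebra R k] [IsFractionRing R k]
    (hR : ¬ IsField R) {ℓ : ℕ} (hℓ : ℓ.Prime) (h0 : (ℓ : R) ≠ 0) {ζ : R}
    (hζ : IsPrimitiveRoot ζ ℓ) {n : ℕ} (hn : 3 ≤ n) {P : k[X]} (hP : P ≠ 0) :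
    ∃ (k₁ : Type) (_ : Field k₁) (_ : Algebra k k₁) (_ : FiniteDimensional k k₁)
      (_ : IsGalois k k₁) (Q m : ℕ) (ρ : Fin m → k₁), RF k k₁ P Q ρ ∧
      ∀ η : ℝ, 0 < η → ∃ M : Ideal R, Finite (R ⧸ M) ∧
        (1 - η) * (Nat.card (R ⧸ M) : ℝ) ^ (Fintype.card (Fin (n + 1))) ≤
        (({x : Fin (n + 1) → R ⧸ M | ∀ y : Fin (n + 1) → R,
          (∀ j, Ideal.Quotient.mk M (y j) = x j) →
            HyT ℓ n Q ρ ((bF y).map (algebraMap R k))}.ncard : ℕ) : ℝ) := by
  haveI : IsNoetherianRing R := Algebra.FiniteType.isNoetherianRing ℤ R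
  obtain ⟨k₁, i1, i2, i3, i4, Q, m, ρ, h⟩ := exists_rf hP
  refine ⟨k₁, i1, i2, i3, i4, Q, m, ρ, h, ?_⟩
  intro η hη
  letI : Algebra R k₁ := ((algebraMap k k₁).comp (algebraMap R k)).toAlgebra
  haveI : IsScalarTower R k k₁ := IsScalarTower.of_algebraMap_eq fun x => rfl
  haveI : Algebra.IsSeparable k k₁ := inferInstance
  haveI : IsIntegrallyClosed (integralClosure R k₁) :=
    integralClosure.isIntegrallyClosedOfFiniteExtension k
  haveI : IsFractionRing (integralClosure R k₁) k₁ :=
    integralClosure.isFractionRing_of_finite_extension k k₁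
  haveI : Module.Finite R (integralClosure R k₁) := IsIntegralClosure.finite R k k₁ _
  haveI : Algebra.FiniteType R (integralClosure R k₁) := inferInstance
  haveI : Algebra.FiniteType ℤ (integralClosure R k₁) :=
    Algebra.FiniteType.trans (S := R) inferInstance inferInstance
  have hinj : Function.Injective (algebraMap R (integralClosure R k₁)) := by
    intro a b hab
    have h1 : algebraMap R k₁ a = algebraMap R k₁ b :=
      congrArg (fun z : integralClosure R k₁ => (z : k₁)) hab
    exact IsFractionRing.injective R k ((algebraMap k k₁).injective h1)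
  exact sieve R k (integralClosure R k₁) k₁ hinj hR hℓ h0 hζ h.q h.inj hn η hη

end Pool.Agent.J6H65.TW
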