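import Pool.Agent.J6H65.TW.Sch

/-!
Homomorphisms of finitely generated subrings of a finite extension of a field of fractions to residue
fields of the ground ring.
-/

set_option autoImplicit false
set_option linter.all false

open Polynomial
open scoped Classical

namespace Pool.Agent.J6H65.TW

theorem exists_sep {B FB Es : Type} [CommRing B] [IsDomain B] [Infinite B] [Field FB]
    [Algebra B FB] [IsFractionRing B FB] [Field Es] [Algebra FB Es] [FiniteDimensional FB Es]
    [Algebra.IsSeparable FB Es] (hu : {u : B | IsUnit u}.Finite) (W : Finset Es) :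
    ∃ (m : Ideal B) (Λ : Subring Es) (ψ : Λ →+* B ⧸ m), m.IsMaximal ∧ (∀ w ∈ W, w ∈ Λ) ∧
      ∃ hb : ∀ b : B, algebraMap FB Es (algebraMap B FB b) ∈ Λ,
        ∀ b, ψ ⟨_, hb b⟩ = Ideal.Quotient.mk m b := by
  obtain ⟨pb, -⟩ : ∃ pb : PowerBasis FB Es, pb = pb :=
    ⟨Field.powerBasisOfFiniteOfSeparable FB Es, rfl⟩
  obtain ⟨θ, hθ⟩ : ∃ θ, θ = pb.gen := ⟨_, rfl⟩
  have hg : ∀ w : Es, ∃ g : FB[X], w = aeval θ g := fun w => by
    rw [hθ]
    exact pb.exists_eq_aeval' w
  choose g hg using hg
  obtain ⟨μ, hμ⟩ : ∃ μ, μ = minpoly FB θ := ⟨_, rfl⟩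
  have hint : IsIntegral FB θ := Algebra.IsIntegral.isIntegral θ
  have hμm : μ.Monic := hμ ▸ minpoly.monic hint
  have hμ1 : 1 ≤ μ.natDegree := by
    rw [hμ]
    exact minpoly.natDegree_pos hint
  -- common denominator
  obtain ⟨s, hs⟩ : ∃ s : Finset FB, s = μ.coeffs ∪ W.biUnion fun w => (g w).coeffs := ⟨_, rfl⟩
  obtain ⟨⟨m0, hm0⟩, hm0s⟩ := IsLocalization.exist_integer_multiples_of_finset
    (nonZeroDivisors B) s
  have hm00 : m0 ≠ 0 := nonZeroDivisors.ne_zero hm0
  have hm0F : algebraMap B FB m0 ≠ 0 := by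
    rw [Ne, map_eq_zero_iff _ (IsFractionRing.injective B FB)]
    exact hm00
  have hple : Submonoid.powers m0 ≤ nonZeroDivisors B := by
    rw [Submonoid.powers_le]
    exact hm0
  obtain ⟨Bm, hBm⟩ : ∃ Bm : Subalgebra B FB,
      Bm = Localization.subalgebra.ofField FB (Submonoid.powers m0) hple := ⟨_, rfl⟩
  haveI hloc : IsLocalization (Submonoid.powers m0) Bm := by
    rw [hBm]
    infer_instance
  have hmemB : ∀ x ∈ s, x ∈ Bm := by
    intro x hx
    obtain ⟨y, hy⟩ := hm0s x hx
    have h1 : ((⟨m0, Submonoid.mem_powers m0⟩ : Submonoid.powers m0) : B) = m0 := rfl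
    have h2 : algebraMap B FB y = algebraMap B FB m0 * x := by
      rw [hy, Algebra.smul_def]
    obtain ⟨u, hu'⟩ := (IsLocalization.map_units (S := Bm)
      (⟨m0, Submonoid.mem_powers m0⟩ : Submonoid.powers m0))
    have h3 : x = algebraMap B FB y * ((↑u⁻¹ : Bm) : FB) := by
      have h4 : algebraMap B FB m0 = ((u : Bm) : FB) := by
        rw [hu']
        rfl
      have h5 : ((u : Bm) : FB) * ((↑u⁻¹ : Bm) : FB) = 1 := by
        rw [← Subalgebra.coe_mul, Units.mul_inv, Subalgebra.coe_one]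
      rw [h2, h4]
      linear_combination (-x) * h5
    rw [h3]
    exact Bm.mul_mem (Bm.algebraMap_mem y) (↑u⁻¹ : Bm).2
  let vB : Bm →+* FB := Bm.val.toRingHom
  have hvB : Function.Injective vB := Subtype.val_injective
  have hvb : ∀ b : B, vB (algebraMap B Bm b) = algebraMap B FB b := fun b => rfl
  have hlift : ∀ q : FB[X], (∀ x ∈ q.coeffs, x ∈ s) → ∃ q' : Bm[X], q'.map vB = q := by
    intro q hq
    have h1 : q ∈ lifts vB := by
      rw [lifts_iff_coeffs_subset_range]
      intro x hx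
      exact ⟨⟨x, hmemB x (hq x hx)⟩, rfl⟩
    exact h1
  obtain ⟨μ', hμ'⟩ := hlift μ (fun x hx => by
    rw [hs, Finset.mem_union]
    exact Or.inl hx)
  have hμ'm : μ'.Monic := monic_of_injective hvB (by rw [hμ']; exact hμm)
  -- the polynomial over B
  have hh : ∃ h : B[X], h.map (algebraMap B FB) = C (algebraMap B FB m0) * μ := by
    have h1 : C (algebraMap B FB m0) * μ ∈ lifts (algebraMap B FB) := by
      rw [lifts_iff_coeff_lifts]
      intro n
      rw [coeff_C_mul]
      by_cases h2 : μ.coeff n = 0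
      · exact ⟨0, by rw [h2, mul_zero, map_zero]⟩
      · obtain ⟨y, hy⟩ := hm0s (μ.coeff n) (by
          rw [hs, Finset.mem_union]
          exact Or.inl (coeff_mem_coeffs h2))
        refine ⟨y, ?_⟩
        rw [hy, Algebra.smul_def]
    exact h1
  obtain ⟨h, hh⟩ := hh
  have hhd : 1 ≤ h.natDegree := by
    have h1 := congrArg natDegree hh
    rw [natDegree_C_mul hm0F, natDegree_map_eq_of_injective (IsFractionRing.injective B FB)] at h1
    rw [h1]
    exact hμ1
  obtain ⟨m, a, hm, hcm, ham⟩ := schur hu hhd hm00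
  haveI := hm
  letI : Field (B ⧸ m) := Ideal.Quotient.field m
  have hmk : Ideal.Quotient.mk m m0 ≠ 0 := fun h0 => hcm (Ideal.Quotient.eq_zero_iff_mem.1 h0)
  have hunit : ∀ y : Submonoid.powers m0, IsUnit (Ideal.Quotient.mk m y) := by
    rintro ⟨_, n, rfl⟩
    show IsUnit (Ideal.Quotient.mk m (m0 ^ n))
    rw [map_pow]
    exact (isUnit_iff_ne_zero.2 hmk).pow n
  let j0 : Bm →+* B ⧸ m := IsLocalization.lift (M := Submonoid.powers m0)
    (g := Ideal.Quotient.mk m) hunit
  have hj0 : ∀ b : B, j0 (algebraMap B Bm b) = Ideal.Quotient.mk m b := fun b =>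
    IsLocalization.lift_eq hunit b
  let j : Bm[X] →+* B ⧸ m := eval₂RingHom j0 (Ideal.Quotient.mk m a)
  let i : Bm[X] →+* Es := (aeval θ : FB[X] →ₐ[FB] Es).toRingHom.comp (mapRingHom vB)
  have hi : ∀ q, i q = aeval θ (q.map vB) := fun q => rfl
  have hjμ : j μ' = 0 := by
    have h1 : C (algebraMap B Bm m0) * μ' = h.map (algebraMap B Bm) := by
      apply map_injective vB hvB
      rw [Polynomial.map_mul, map_C, hμ', Polynomial.map_map]
      show C (algebraMap B FB m0) * μ = h.map (algebraMap B FB)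
      exact hh.symm
    have h2 := congrArg j h1
    rw [map_mul] at h2
    have h3 : j (h.map (algebraMap B Bm)) = 0 := by
      show eval₂ j0 (Ideal.Quotient.mk m a) (h.map (algebraMap B Bm)) = 0
      rw [eval₂_map]
      have h4 : j0.comp (algebraMap B Bm) = Ideal.Quotient.mk m := RingHom.ext hj0
      rw [h4, eval₂_at_apply]
      exact Ideal.Quotient.eq_zero_iff_mem.2 ham
    have h5 : j (C (algebraMap B Bm m0)) = Ideal.Quotient.mk m m0 := by
      show eval₂ j0 (Ideal.Quotient.mk m a) (C (algebraMap B Bm m0)) = _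
      rw [eval₂_C, hj0]
    rw [h3, h5] at h2
    exact (mul_eq_zero.1 h2).resolve_left hmk
  have hker : RingHom.ker i.rangeRestrict ≤ RingHom.ker j := by
    intro q hq
    rw [RingHom.mem_ker] at hq ⊢
    have hq' : i q = 0 := congrArg Subtype.val hq
    have h1 := modByMonic_add_div q μ'
    have h2 : i (q %ₘ μ') = 0 := by
      have h3 := congrArg i h1
      rw [map_add, map_mul, hq'] at h3
      have h4 : i μ' = 0 := by
        rw [hi, hμ', hμ]
        exact minpoly.aeval FB θ
      rw [h4, zero_mul, add_zero] at h3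
      exact h3
    have h3 : (q %ₘ μ').map vB = 0 := by
      by_contra hne
      have h4 := minpoly.degree_le_of_ne_zero FB θ hne h2
      have h5 : ((q %ₘ μ').map vB).degree < μ.degree := by
        rw [degree_map_eq_of_injective hvB, ← hμ', degree_map_eq_of_injective hvB]
        exact degree_modByMonic_lt _ hμ'm
      rw [← hμ] at h4
      exact absurd h4 (not_le.2 h5)
    have h4 : q %ₘ μ' = 0 := by
      apply map_injective vB hvB
      rw [h3, Polynomial.map_zero]
    rw [← h1, h4, zero_add, map_mul, hjμ, zero_mul]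
  refine ⟨m, i.range, i.rangeRestrict.liftOfSurjective i.rangeRestrict_surjective ⟨j, hker⟩, hm,
    ?_, ?_, ?_⟩
  · intro w hw
    obtain ⟨q', hq'⟩ := hlift (g w) (fun x hx => by
      rw [hs, Finset.mem_union]
      refine Or.inr (Finset.mem_biUnion.2 ⟨w, hw, hx⟩))
    exact ⟨q', by rw [hi, hq', ← hg]⟩
  · intro b
    exact ⟨C (algebraMap B Bm b), by rw [hi, map_C, aeval_C]; rfl⟩
  · intro b
    have h1 : (⟨algebraMap FB Es (algebraMap B FB b), ⟨C (algebraMap B Bm b), by
        rw [hi, map_C, aeval_C]; rfl⟩⟩ : i.range) = i.rangeRestrict (C (algebraMap B Bm b)) := by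
      apply Subtype.ext
      show algebraMap FB Es (algebraMap B FB b) = i (C (algebraMap B Bm b))
      rw [hi, map_C, aeval_C]
      rfl
    rw [h1, RingHom.liftOfSurjective_comp_apply]
    show eval₂ j0 (Ideal.Quotient.mk m a) (C (algebraMap B Bm b)) = _
    rw [eval₂_C, hj0]

end Pool.Agent.J6H65.TW
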