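import Pool.Agent.J6H65.TW.Ms
import Pool.Agent.J6H65.TW.Dg1
import Pool.Agent.J6H65.SG.Fin

/-!
The sieve over the maximal ideals with a point of degree one above them.
-/

set_option autoImplicit false
set_option linter.all false

open Polynomial IsLocalRing
open scoped Classical

namespace Pool.Agent.J6H65.TW

open Pool.Agent.X243.Gen Pool.Agent.X243.Sol Pool.Agent.X243.Tate Pool.Agent.Y160.T3
open Pool.Agent.J6H65.SG

/-- The conditions on a polynomial `D` over `k`. -/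
structure HyT {k k₁ : Type} [Field k] [Field k₁] [Algebra k k₁] (ℓ n Q : ℕ) {m : ℕ}
    (ρ : Fin m → k₁) (D : k[X]) : Prop where
  f0 : FF n D
  f1 : FF n (D.map (algebraMap k k₁))
  np : ∀ s : Fin m → ℕ, (∀ i, s i < ℓ) → (∃ i, s i ≠ 0) →
    NoPow ℓ (D.map (algebraMap k k₁)) (∏ i, (X ^ Q - C (ρ i)) ^ s i)

section ev

variable {R k : Type} [CommRing R] [IsDomain R] [IsIntegrallyClosed R] [IsNoetherianRing R]
  [Field k] [Algebra R k] [IsFractionRing R k]

theorem nopow_gen {ℓ n : ℕ} (hℓ : 0 < ℓ) {G f : R[X]} (hG : G.natDegree ≤ n)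
    (hF : FF n (G.map (algebraMap R k))) {p : Ideal R}
    (hm : p.IsMaximal) (hf : Finite (R ⧸ p)) {w : Fin (n + 1) → R ⧸ p}
    (hw : bF w = G.map (Ideal.Quotient.mk p))
    (h : w ∈ PF ℓ n (f.map (Ideal.Quotient.mk p))) :
    NoPow ℓ (G.map (algebraMap R k)) (f.map (algebraMap R k)) := by
  intro E _ _ _ x y hx hy hxy
  haveI := hm
  haveI := hf
  obtain ⟨-, hsep, hfull⟩ := hF
  haveI : FiniteDimensional k E :=
    IsSplittingField.finiteDimensional E (G.map (algebraMap R k))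
  haveI : IsGalois k E := IsGalois.of_separable_splitting_field hsep
  obtain ⟨d, S, c₁, c₂, hd, hS, hfac, h1, h2, h3, h4, h5⟩ := h
  rw [hw] at hfac
  obtain ⟨θ₁, θ₂, n1, n2, hne⟩ := pair_frob p k hℓ hG hd hS hfac h1 h2 h3 h4 h5 E
  have hθ : θ₁ ≠ θ₂ := by
    rintro rfl
    exact hne 1 (by rw [one_pow, one_mul])
  have hsurj := hfull E (IsSplittingField.splits E _)
  -- a permutation
  obtain ⟨c, hc1, hc2⟩ : ∃ c : Equiv.Perm ((G.map (algebraMap R k)).rootSet E),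
      c ⟨x, hx⟩ = θ₁ ∧ c ⟨y, hy⟩ = θ₂ := by
    refine ⟨Equiv.swap (Equiv.swap ⟨x, hx⟩ θ₁ ⟨y, hy⟩) θ₂ * Equiv.swap ⟨x, hx⟩ θ₁, ?_, ?_⟩
    · rw [Equiv.Perm.mul_apply, Equiv.swap_apply_left]
      apply Equiv.swap_apply_of_ne_of_ne
      · intro h2
        apply hxy
        have h3 : Equiv.swap (⟨x, hx⟩ : (G.map (algebraMap R k)).rootSet E) θ₁ ⟨x, hx⟩ =
            Equiv.swap ⟨x, hx⟩ θ₁ ⟨y, hy⟩ := by rw [Equiv.swap_apply_left]; exact h2
        exact Subtype.mk.inj ((Equiv.swap _ θ₁).injective h3)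
      · exact hθ
    · rw [Equiv.Perm.mul_apply, Equiv.swap_apply_left]
  obtain ⟨σ, hσ⟩ := hsurj c
  have s1 : σ x = θ₁ := by
    rw [← hc1, ← hσ]
    rfl
  have s2 : σ y = θ₂ := by
    rw [← hc2, ← hσ]
    rfl
  have t1 : ∀ g : k[X], σ (aeval x g) = aeval (θ₁ : E) g := fun g => by
    rw [← s1]; exact (aeval_algHom_apply σ x g).symm
  have t2 : ∀ g : k[X], σ (aeval y g) = aeval (θ₂ : E) g := fun g => by
    rw [← s2]; exact (aeval_algHom_apply σ y g).symm
  refine ⟨?_, ?_⟩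
  · intro h0
    apply n1
    rw [← t1, h0, map_zero]
  · intro z hz
    apply hne (σ z)
    rw [← t1, ← t2, hz, map_mul, map_pow]

theorem NoPow.of_smul {k : Type} [Field k] {ℓ : ℕ} {F f : k[X]} {u : k} (hu : u ≠ 0)
    (h : NoPow ℓ F (C u * f)) : NoPow ℓ F f := by
  intro E _ _ _ x y hx hy hxy
  obtain ⟨h1, h2⟩ := h E x y hx hy hxy
  rw [map_mul, aeval_C] at h1
  refine ⟨right_ne_zero_of_mul h1, fun z hz => h2 z ?_⟩
  rw [map_mul, map_mul, aeval_C, aeval_C, hz]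
  ring

/-- A polynomial over `A` with large values of the events. -/
theorem ffn {n : ℕ} (hn : 3 ≤ n) {G : R[X]} (hG : G.natDegree ≤ n)
    (hev : ∀ t : Fin 3, ∃ p : Ideal R, p.IsMaximal ∧ Finite (R ⧸ p) ∧ ∃ w ∈ Ev (R ⧸ p) n t,
      bF w = G.map (Ideal.Quotient.mk p)) :
    FF n (G.map (algebraMap R k)) := by
  refine evB (β := (1 : R)) (B := 0) hn hG fun t => ?_
  obtain ⟨p, h1, h2, h3⟩ := hev t
  exact ⟨p, ⟨h1, h2, Nat.zero_le _, fun h => h1.ne_top ((Ideal.eq_top_iff_one p).2 h)⟩, h3⟩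

end ev

section trans

variable {R A : Type} [CommRing R] [CommRing A] [Algebra R A]

/-- The tuples modulo `p` which give elements of `S` modulo `q`. -/
def Trs (n : ℕ) (p : Ideal R) (q : Ideal A) (S : Set (Fin (n + 1) → A ⧸ q)) :
    Set (Fin (n + 1) → R ⧸ p) :=
  {w | ∀ y : Fin (n + 1) → R, (∀ j, Ideal.Quotient.mk p (y j) = w j) →
    (fun j => Ideal.Quotient.mk q (algebraMap R A (y j))) ∈ S}

theorem Trs_card {n : ℕ} {p : Ideal R} {q : Ideal A} (hpq : p = q.comap (algebraMap R A))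
    (hs : Function.Surjective ((Ideal.Quotient.mk q).comp (algebraMap R A))) [Finite (R ⧸ p)]
    (S : Set (Fin (n + 1) → A ⧸ q)) : S.ncard ≤ (Trs n p q S).ncard := by
  have hex : ∀ w' : Fin (n + 1) → A ⧸ q, ∃ y : Fin (n + 1) → R,
      ∀ j, Ideal.Quotient.mk q (algebraMap R A (y j)) = w' j := by
    intro w'
    choose y hy using fun j => hs (w' j)
    exact ⟨y, hy⟩
  choose Y hY using hex
  have hmem : ∀ a b : R, Ideal.Quotient.mk p a = Ideal.Quotient.mk p b →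
      Ideal.Quotient.mk q (algebraMap R A a) = Ideal.Quotient.mk q (algebraMap R A b) := by
    intro a b h
    rw [Ideal.Quotient.eq, hpq, Ideal.mem_comap, map_sub] at h
    exact Ideal.Quotient.eq.2 h
  refine Set.ncard_le_ncard_of_injOn (fun w' j => Ideal.Quotient.mk p (Y w' j)) ?_ ?_
    (Set.toFinite _)
  · intro w' hw' y hy
    have e : (fun j => Ideal.Quotient.mk q (algebraMap R A (y j))) = w' := by
      funext j
      rw [← hY w' j]
      exact hmem _ _ (hy j)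
    rw [e]
    exact hw'
  · intro w' _ w'' _ h
    funext j
    rw [← hY w' j, ← hY w'' j]
    exact hmem _ _ (congrFun h j)

theorem quot_card {p : Ideal R} {q : Ideal A} (hpq : p = q.comap (algebraMap R A))
    (hs : Function.Surjective ((Ideal.Quotient.mk q).comp (algebraMap R A))) :
    Nat.card (R ⧸ p) = Nat.card (A ⧸ q) ∧ (Finite (R ⧸ p) → Finite (A ⧸ q)) := by
  have h1 : RingHom.ker ((Ideal.Quotient.mk q).comp (algebraMap R A)) = p := by
    ext x
    rw [RingHom.mem_ker, RingHom.comp_apply, Ideal.Quotient.eq_zero_iff_mem, hpq, Ideal.mem_comap]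
  have e : R ⧸ p ≃ A ⧸ q := by
    rw [← h1]
    exact (RingHom.quotientKerEquivOfSurjective hs).toEquiv
  exact ⟨Nat.card_congr e, fun h => Finite.of_equiv _ e⟩

end trans

theorem card_dvd {ℓ : ℕ} (hℓ : ℓ.Prime) {A : Type} [CommRing A] [IsDomain A] {ζ : A}
    (hζ : IsPrimitiveRoot ζ ℓ) {F : Type} [Field F] [Fintype F] (φ : A →+* F)
    (hF : (ℓ : F) ≠ 0) : ℓ ∣ Fintype.card F - 1 := by
  haveI : Fact ℓ.Prime := ⟨hℓ⟩
  have h1 : (φ ζ) ^ ℓ = 1 := by rw [← map_pow, hζ.pow_eq_one, map_one]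
  have h2 : φ ζ ≠ 1 := by
    intro h
    have h3 := congrArg φ (hζ.geom_sum_eq_zero hℓ.one_lt)
    rw [map_sum, map_zero] at h3
    simp only [map_pow, h, one_pow, Finset.sum_const, Finset.card_range, nsmul_eq_mul,
      mul_one] at h3
    exact hF h3
  have h3 : φ ζ ≠ 0 := by
    intro h
    rw [h, zero_pow hℓ.ne_zero] at h1
    exact zero_ne_one h1
  rw [← orderOf_eq_prime h1 h2]
  exact orderOf_dvd_of_pow_eq_one (FiniteField.pow_card_sub_one_eq_one _ h3)

/-- The index set of the events. -/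
abbrev Sy (ℓ m : ℕ) : Type := Fin 3 ⊕ Fin 3 ⊕ {s : Fin m → Fin ℓ // ∃ i, (s i : ℕ) ≠ 0}

/-- The events. -/
def Gv {R A : Type} [CommRing R] [CommRing A] [Algebra R A] (ℓ n Q : ℕ) {m : ℕ} (e : A)
    (a : Fin m → A) (qf : Ideal R → Ideal A) : Sy ℓ m → ∀ p : Ideal R, Set (Fin (n + 1) → R ⧸ p)
  | Sum.inl t => fun p => Ev (R ⧸ p) n t
  | Sum.inr (Sum.inl t) => fun p => Trs n p (qf p) (Ev (A ⧸ qf p) n t)
  | Sum.inr (Sum.inr s) => fun p => Trs n p (qf p)
      (PF ℓ n ((pr Q e a fun i => (s.1 i : ℕ)).map (Ideal.Quotient.mk (qf p))))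

theorem Ev_real {F : Type} [Field F] [Finite F] {n : ℕ} (hn : 3 ≤ n)
    (hq : 2 * n + 2 ≤ Nat.card F) (t : Fin 3) :
    1 / (DD n : ℝ) * (Nat.card F : ℝ) ^ (n + 1) ≤ ((Ev F n t).ncard : ℝ) := by
  haveI := Fintype.ofFinite F
  rw [Nat.card_eq_fintype_card] at hq ⊢
  have h5 := Ev_card (F := F) hn hq t
  have h6 : (Fintype.card F : ℝ) ^ (n + 1) ≤ (DD n : ℝ) * ((Ev F n t).ncard : ℝ) := by
    exact_mod_cast h5
  have h7 : (0 : ℝ) < (DD n : ℝ) := by exact_mod_cast DD_pos hn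
  rw [div_mul_eq_mul_div, one_mul, div_le_iff₀ h7]
  linarith

theorem sieve (R k A k₁ : Type) [CommRing R] [IsDomain R] [IsIntegrallyClosed R]
    [Algebra.FiniteType ℤ R] [Field k] [Algebra R k] [IsFractionRing R k] [CommRing A] [IsDomain A]
    [IsIntegrallyClosed A] [Algebra.FiniteType ℤ A] [Algebra R A]
    (hinj : Function.Injective (algebraMap R A)) [Field k₁] [Algebra A k₁] [IsFractionRing A k₁]
    [Algebra k k₁] [Algebra R k₁] [IsScalarTower R k k₁] [IsScalarTower R A k₁]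
    (hR : ¬ IsField R) {ℓ : ℕ} (hℓ : ℓ.Prime) (h0 : (ℓ : R) ≠ 0) {ζ : R}
    (hζ : IsPrimitiveRoot ζ ℓ) {Q m : ℕ} (hQ : QK k Q) {ρ : Fin m → k₁}
    (hρ : Function.Injective ρ) {n : ℕ} (hn : 3 ≤ n) (η : ℝ) (hη : 0 < η) :
    ∃ M : Ideal R, Finite (R ⧸ M) ∧
      (1 - η) * (Nat.card (R ⧸ M) : ℝ) ^ (Fintype.card (Fin (n + 1))) ≤
      (({x : Fin (n + 1) → R ⧸ M | ∀ y : Fin (n + 1) → R,
        (∀ j, Ideal.Quotient.mk M (y j) = x j) →
          HyT ℓ n Q ρ ((bF y).map (algebraMap R k))}.ncard : ℕ) : ℝ) := by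
  haveI : IsNoetherianRing R := Algebra.FiniteType.isNoetherianRing ℤ R
  haveI : IsNoetherianRing A := Algebra.FiniteType.isNoetherianRing ℤ A
  obtain ⟨e, he⟩ := IsLocalization.exist_integer_multiples_of_finite (nonZeroDivisors A) ρ
  have he0 : (e : A) ≠ 0 := nonZeroDivisors.coe_ne_zero e
  choose a ha using he
  have ha' : ∀ i, algebraMap A k₁ (a i) = algebraMap A k₁ e * ρ i := fun i => by
    rw [ha, Algebra.smul_def]
  have hek : algebraMap A k₁ e ≠ 0 := by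
    rw [Ne, map_eq_zero_iff _ (IsFractionRing.injective A k₁)]
    exact he0
  have hainj : ∀ i j, i ≠ j → a i - a j ≠ 0 := by
    intro i j hij h
    have h1 := congrArg (algebraMap A k₁) (sub_eq_zero.1 h)
    rw [ha', ha'] at h1
    exact hij (hρ (mul_left_cancel₀ hek h1))
  have hℓA : (ℓ : A) ≠ 0 := by
    rw [← map_natCast (algebraMap R A)]
    exact (map_ne_zero_iff _ hinj).2 h0
  obtain ⟨β, hβ⟩ : ∃ β : A, β = (ℓ : A) * e * ∏ q ∈ Finset.univ.filter
      (fun q : Fin m × Fin m => q.1 ≠ q.2), (a q.1 - a q.2) := ⟨_, rfl⟩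
  have hβ0 : β ≠ 0 := by
    rw [hβ]
    refine mul_ne_zero (mul_ne_zero hℓA he0) (Finset.prod_ne_zero_iff.2 fun q hq => ?_)
    exact hainj _ _ (Finset.mem_filter.1 hq).2
  obtain ⟨P0, c1, hc1, hP0⟩ := P1_card hℓ Q m n (by omega)
  obtain ⟨Z, hZ⟩ : ∃ Z : Set (Ideal R), Z = {p : Ideal R | p.IsMaximal ∧ Finite (R ⧸ p) ∧
      P0 + 2 * n + 2 ≤ Nat.card (R ⧸ p) ∧ ∃ q : Ideal A, q.IsMaximal ∧ β ∉ q ∧
        p = q.comap (algebraMap R A) ∧
        Function.Surjective ((Ideal.Quotient.mk q).comp (algebraMap R A))} := ⟨_, rfl⟩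
  have hZinf : Z.Infinite := hZ ▸ deg1_inf R A hinj hR hβ0 _
  have hZ1 : ∀ p ∈ Z, p.IsMaximal := fun p hp => by rw [hZ] at hp; exact hp.1
  have hZ2 : ∀ p ∈ Z, Finite (R ⧸ p) := fun p hp => by rw [hZ] at hp; exact hp.2.1
  have hZ3 : ∀ p ∈ Z, P0 + 2 * n + 2 ≤ Nat.card (R ⧸ p) :=
    fun p hp => by rw [hZ] at hp; exact hp.2.2.1
  have hZ4 : ∀ p ∈ Z, ∃ q : Ideal A, q.IsMaximal ∧ β ∉ q ∧ p = q.comap (algebraMap R A) ∧
      Function.Surjective ((Ideal.Quotient.mk q).comp (algebraMap R A)) :=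
    fun p hp => by rw [hZ] at hp; exact hp.2.2.2
  choose! qf q1 q2 q3 q4 using hZ4
  have hDD : (0 : ℝ) < (DD n : ℝ) := by exact_mod_cast DD_pos hn
  obtain ⟨c, hc⟩ : ∃ c : ℝ, c = min (1 / (DD n : ℝ)) c1 := ⟨_, rfl⟩
  have hc0 : 0 < c := hc ▸ lt_min (by positivity) hc1
  have hca : c ≤ 1 / (DD n : ℝ) := hc ▸ min_le_left _ _
  have hcb : c ≤ c1 := hc ▸ min_le_right _ _
  obtain ⟨M, hM, hd⟩ := densityG Z hZinf hZ1 hZ2 (Gv ℓ n Q (e : A) a qf) hc0 (by
    intro s p hp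
    haveI := hZ1 p hp
    haveI : Finite (R ⧸ p) := hZ2 p hp
    letI : Field (R ⧸ p) := Ideal.Quotient.field p
    obtain ⟨h1, h2⟩ := quot_card (q3 p hp) (q4 p hp)
    haveI := q1 p hp
    haveI : Finite (A ⧸ qf p) := h2 inferInstance
    letI : Field (A ⧸ qf p) := Ideal.Quotient.field (qf p)
    haveI := Fintype.ofFinite (A ⧸ qf p)
    have hcard := hZ3 p hp
    rw [Fintype.card_fin]
    have hpos : (0 : ℝ) ≤ (Nat.card (R ⧸ p) : ℝ) ^ (n + 1) := by positivity
    rcases s with t | t | s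
    · exact (mul_le_mul_of_nonneg_right hca hpos).trans (Ev_real hn (by omega) t)
    · refine (mul_le_mul_of_nonneg_right hca hpos).trans ?_
      have h3 := Ev_real (F := A ⧸ qf p) hn (by omega) t
      rw [← h1] at h3
      refine h3.trans ?_
      exact_mod_cast Trs_card (q3 p hp) (q4 p hp) (Ev (A ⧸ qf p) n t)
    · refine (mul_le_mul_of_nonneg_right hcb hpos).trans ?_
      have hβq := q2 p hp
      have hℓq : ((ℓ : ℕ) : A ⧸ qf p) ≠ 0 := by
        intro h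
        rw [← map_natCast (Ideal.Quotient.mk (qf p)), Ideal.Quotient.eq_zero_iff_mem] at h
        apply hβq
        rw [hβ]
        exact Ideal.mul_mem_right _ _ (Ideal.mul_mem_right _ _ h)
      have heq : Ideal.Quotient.mk (qf p) (e : A) ≠ 0 := by
        intro h
        rw [Ideal.Quotient.eq_zero_iff_mem] at h
        apply hβq
        rw [hβ]
        exact Ideal.mul_mem_right _ _ (Ideal.mul_mem_left _ _ h)
      have haq : Function.Injective fun i => Ideal.Quotient.mk (qf p) (a i) := by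
        intro i j hij
        by_contra hne
        have h3 : a i - a j ∈ qf p := Ideal.Quotient.eq.1 hij
        apply hβq
        rw [hβ]
        apply Ideal.mul_mem_left
        rw [← Finset.mul_prod_erase _ _ (Finset.mem_filter.2 ⟨Finset.mem_univ (i, j), hne⟩)]
        exact Ideal.mul_mem_right _ _ h3
      have hQq : QK (A ⧸ qf p) Q := by
        refine hQ.of fun p' hp' => ?_
        have h3 : (p' : R) = 0 := by
          apply IsFractionRing.injective R k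
          rw [map_natCast, hp', map_zero]
        rw [← map_natCast (Ideal.Quotient.mk (qf p)), ← map_natCast (algebraMap R A), h3,
          map_zero, map_zero]
      have hdvd : ℓ ∣ Fintype.card (A ⧸ qf p) - 1 :=
        card_dvd hℓ hζ ((Ideal.Quotient.mk (qf p)).comp (algebraMap R A)) hℓq
      have h3 := hP0 (A ⧸ qf p) (by rw [← Nat.card_eq_fintype_card, ← h1]; omega) hdvd hℓq hQq
        (Ideal.Quotient.mk (qf p) (e : A)) (fun i => Ideal.Quotient.mk (qf p) (a i))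
        (fun i => (s.1 i : ℕ)) heq haq (fun i => (s.1 i).2) s.2
      rw [← pr_map, ← Nat.card_eq_fintype_card, ← h1] at h3
      refine h3.trans ?_
      exact_mod_cast Trs_card (q3 p hp) (q4 p hp) (PF ℓ n
        ((pr Q (e : A) a fun i => (s.1 i : ℕ)).map (Ideal.Quotient.mk (qf p))))) η hη
  refine ⟨M, hM, hd.trans ?_⟩
  haveI := hM
  have hsub : {x : Fin (n + 1) → R ⧸ M | ∀ s, ∃ p ∈ Z, ∀ y : Fin (n + 1) → R,
      (∀ j, Ideal.Quotient.mk M (y j) = x j) →
        (fun j => Ideal.Quotient.mk p (y j)) ∈ Gv ℓ n Q (e : A) a qf s p} ⊆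
      {x : Fin (n + 1) → R ⧸ M | ∀ y : Fin (n + 1) → R,
        (∀ j, Ideal.Quotient.mk M (y j) = x j) →
          HyT ℓ n Q ρ ((bF y).map (algebraMap R k))} := by
    intro x hx y hy
    have hx' : ∀ s, ∃ p ∈ Z, (fun j => Ideal.Quotient.mk p (y j)) ∈ Gv ℓ n Q (e : A) a qf s p := by
      intro s
      obtain ⟨p, hp, h⟩ := hx s
      exact ⟨p, hp, h y hy⟩
    have f0 : FF n ((bF y).map (algebraMap R k)) := by
      refine ffn hn (bF_nd y) fun t => ?_
      obtain ⟨p, hp, h⟩ := hx' (Sum.inl t)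
      exact ⟨p, hZ1 p hp, hZ2 p hp, _, h, (bF_map _ _).symm⟩
    obtain ⟨y', hy'⟩ : ∃ y' : Fin (n + 1) → A, ∀ j, y' j = algebraMap R A (y j) :=
      ⟨_, fun _ => rfl⟩
    have hbm : (bF y').map (algebraMap A k₁) =
        ((bF y).map (algebraMap R k)).map (algebraMap k k₁) := by
      rw [Polynomial.map_map, ← IsScalarTower.algebraMap_eq, bF_map, bF_map]
      congr 1
      funext j
      rw [hy', ← IsScalarTower.algebraMap_apply]
    have hfin : ∀ p ∈ Z, Finite (A ⧸ qf p) := fun p hp =>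
      (quot_card (q3 p hp) (q4 p hp)).2 (hZ2 p hp)
    have f1 : FF n ((bF y').map (algebraMap A k₁)) := by
      refine ffn hn (bF_nd y') fun t => ?_
      obtain ⟨p, hp, h⟩ := hx' (Sum.inr (Sum.inl t))
      refine ⟨qf p, q1 p hp, hfin p hp, _, h y fun _ => rfl, ?_⟩
      rw [bF_map]
      congr 1
      funext j
      rw [hy']
    refine ⟨f0, hbm ▸ f1, fun s hs1 hs2 => ?_⟩
    rw [← hbm]
    obtain ⟨i0, hi0⟩ := hs2
    obtain ⟨p, hp, h⟩ := hx' (Sum.inr (Sum.inr ⟨fun i => ⟨s i, hs1 i⟩, i0, hi0⟩))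
    have h1 := nopow_gen (k := k₁) hℓ.pos (bF_nd y') f1 (q1 p hp) (hfin p hp)
      (f := pr Q (e : A) a s)
      (w := fun j => Ideal.Quotient.mk (qf p) (algebraMap R A (y j))) (by
        rw [bF_map]
        congr 1
        funext j
        rw [hy']) (h y fun _ => rfl)
    refine NoPow.of_smul (u := algebraMap A k₁ e ^ (∑ i, s i)) (pow_ne_zero _ hek) ?_
    have h2 : (pr Q (e : A) a s).map (algebraMap A k₁) =
        C (algebraMap A k₁ e ^ (∑ i, s i)) * ∏ i, (X ^ Q - C (ρ i)) ^ s i := by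
      rw [pr_map]
      unfold pr
      rw [← Finset.prod_pow_eq_pow_sum, map_prod, ← Finset.prod_mul_distrib]
      refine Finset.prod_congr rfl fun i _ => ?_
      dsimp only
      rw [ha', C_mul, C_pow, ← mul_pow, mul_sub]
    rw [← h2]
    exact h1
  exact_mod_cast Set.ncard_le_ncard hsub (Set.toFinite _)

end Pool.Agent.J6H65.TW
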